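import Pool.Agent.MP_994d64_an.Defs

namespace Pool.Agent.MP_994d64_an

open Polynomial

/-- The polynomials whose values are the orbit. -/
noncomputable def ConjP (e : ℕ → ℤ) : ℕ → ℤ[X]
  | 0 => 1
  | n + 1 => 1 + C (e n) * X * ConjP e n

lemma Conj_natDegree (e : ℕ → ℤ) (n : ℕ) : (ConjP e n).natDegree ≤ n := by
  induction n with
  | zero => simp [ConjP]
  | succ n ih =>
    rw [ConjP]
    refine (natDegree_add_le _ _).trans (max_le (by simp) ?_)
    refine natDegree_mul_le.trans ?_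
    have : (C (e n) * X : ℤ[X]).natDegree ≤ 1 := natDegree_mul_le.trans (by simp)
    omega

lemma Conj_coeff {e : ℕ → ℤ} (he : ∀ n, e n = 1 ∨ e n = -1) (n : ℕ) :
    (ConjP e n).coeff n * (ConjP e n).coeff n = 1 := by
  induction n with
  | zero => simp [ConjP]
  | succ n ih =>
    have : (ConjP e (n + 1)).coeff (n + 1) = e n * (ConjP e n).coeff n := by
      rw [ConjP, coeff_add, mul_assoc, coeff_C_mul, coeff_X_mul, coeff_one]; simp
    rw [this]
    rcases he n with h | h <;> rw [h] <;> linear_combination ih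

lemma Conj_aeval_ww (e : ℕ → ℤ) (z : ℂ) (n : ℕ) : aeval z (ConjP e n) = ww e z n := by
  induction n with
  | zero => simp [ConjP, ww]
  | succ n ih => simp [ConjP, ww, ih]

lemma Conj_aeval_x {l : ℝ} {x : ℕ → ℝ} {e : ℕ → ℤ} (T : Tent l x e) (n : ℕ) :
    aeval l (ConjP e n) = x n := by
  induction n with
  | zero => simp [ConjP, T.x0]
  | succ n ih => simp [ConjP, T.step, ih]

lemma Conj_root {l : ℝ} {z : ℂ} (hz : aeval z (minpoly ℚ l) = 0) {q : ℤ[X]} (hq : aeval l q = 0) :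
    aeval z q = 0 := by
  have h1 : aeval l (q.map (algebraMap ℤ ℚ)) = 0 := by rwa [aeval_map_algebraMap]
  obtain ⟨r, hr⟩ := minpoly.dvd ℚ l h1
  rw [← aeval_map_algebraMap ℚ, hr, map_mul, hz, zero_mul]

lemma Conj_max {g : ℕ → ℝ} {N p : ℕ} (hp : 0 < p) (h : ∀ k, g (N + k + p) = g (N + k)) :
    ∃ m, ∀ n, g n ≤ g m := by
  obtain ⟨m, -, hm⟩ := Finset.exists_max_image (Finset.range (N + p)) g ⟨0, by simp; omega⟩
  refine ⟨m, fun n => ?_⟩
  induction n using Nat.strong_induction_on with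
  | _ n ih =>
    rcases lt_or_ge n (N + p) with h1 | h1
    · exact hm n (Finset.mem_range.2 h1)
    · obtain ⟨k, rfl⟩ : ∃ k, n = N + k + p := ⟨n - N - p, by omega⟩
      rw [h]; exact ih _ (by omega)

lemma Conj_per {l : ℝ} {x : ℕ → ℝ} {e : ℕ → ℤ} (T : Tent l x e) {z : ℂ}
    (hz : aeval z (minpoly ℚ l) = 0) : ∃ N p, 0 < p ∧ (∀ k, x (N + k + p) = x (N + k)) ∧
      ∀ k, ww e z (N + k + p) = ww e z (N + k) := by
  obtain ⟨N, p, hp, h1, h2⟩ := T.per
  have h3 : ww e z (N + p) = ww e z N := by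
    have := Conj_root hz (q := ConjP e (N + p) - ConjP e N) (by
      rw [map_sub, Conj_aeval_x T, Conj_aeval_x T, h1, sub_self])
    rwa [map_sub, Conj_aeval_ww, Conj_aeval_ww, sub_eq_zero] at this
  refine ⟨N, p, hp, fun k => ?_, fun k => ?_⟩
  · induction k with
    | zero => exact h1
    | succ k ih =>
      rw [show N + (k + 1) + p = N + k + p + 1 by ring, ← add_assoc, T.step, T.step, ih, h2]
  · induction k with
    | zero => exact h3
    | succ k ih =>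
      rw [show N + (k + 1) + p = N + k + p + 1 by ring, ← add_assoc, ww, ww, ih, h2]

theorem Tent.isIntegral {l : ℝ} {x : ℕ → ℝ} {e : ℕ → ℤ} (T : Tent l x e) : IsIntegral ℤ l := by
  obtain ⟨N, p, hp, h1, -⟩ := T.per
  refine ⟨C ((ConjP e (N + p)).coeff (N + p)) * (ConjP e (N + p) - ConjP e N), ?_, ?_⟩
  · refine monic_of_natDegree_le_of_coeff_eq_one (N + p) ?_ ?_
    · refine (natDegree_C_mul_le _ _).trans ((natDegree_sub_le _ _).trans (max_le ?_ ?_))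
      · exact Conj_natDegree _ _
      · exact (Conj_natDegree _ _).trans (by omega)
    · rw [coeff_C_mul, coeff_sub, coeff_eq_zero_of_natDegree_lt (p := ConjP e N)
        ((Conj_natDegree _ _).trans_lt (by omega)), sub_zero, Conj_coeff T.sign]
  · rw [← aeval_def, map_mul, map_sub, Conj_aeval_x T, Conj_aeval_x T, h1, sub_self, mul_zero]

theorem Tent.ww_bdd {l : ℝ} {x : ℕ → ℝ} {e : ℕ → ℤ} (T : Tent l x e) {z : ℂ}
    (hz : aeval z (minpoly ℚ l) = 0) : ∃ M : ℝ, ∀ n, ‖ww e z n‖ ≤ M := by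
  obtain ⟨N, p, hp, -, h⟩ := Conj_per T hz
  obtain ⟨m, hm⟩ := Conj_max (g := fun n => ‖ww e z n‖) hp fun k => by rw [h k]
  exact ⟨_, hm⟩

lemma Conj_norm_e {e : ℕ → ℤ} (he : ∀ n, e n = 1 ∨ e n = -1) (n : ℕ) : ‖(e n : ℂ)‖ = 1 := by
  rcases he n with h | h <;> simp [h]

theorem Tent.ww_le {l : ℝ} {x : ℕ → ℝ} {e : ℕ → ℤ} (T : Tent l x e) {z : ℂ}
    (hz : aeval z (minpoly ℚ l) = 0) (h1 : 1 < ‖z‖) (n : ℕ) : ‖ww e z n‖ ≤ 1 / (‖z‖ - 1) := by
  obtain ⟨N, p, hp, -, h⟩ := Conj_per T hz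
  obtain ⟨m, hm⟩ := Conj_max (g := fun n => ‖ww e z n‖) hp fun k => by rw [h k]
  refine (hm n).trans ?_
  have h2 : ‖z‖ * ‖ww e z m‖ = ‖ww e z (m + 1) - 1‖ := by
    rw [ww, add_sub_cancel_left, norm_mul, norm_mul, Conj_norm_e T.sign, one_mul]
  have h3 := norm_sub_le (ww e z (m + 1)) 1
  have h4 : ‖ww e z (m + 1)‖ ≤ ‖ww e z m‖ := hm (m + 1)
  rw [norm_one] at h3
  rw [le_div_iff₀ (by linarith)]
  show ‖ww e z m‖ * (‖z‖ - 1) ≤ 1
  linarith

lemma Conj_a_nonneg {l : ℝ} {x : ℕ → ℝ} {e : ℕ → ℤ} (T : Tent l x e) (n : ℕ) :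
    0 ≤ -(e n * x n) := by
  have h1 := T.step n
  have h2 := T.le_one (n + 1)
  have h3 := T.one_lt
  by_contra h
  push Not at h
  nlinarith

lemma Conj_a_abs {l : ℝ} {x : ℕ → ℝ} {e : ℕ → ℤ} (T : Tent l x e) (n : ℕ) :
    -(e n * x n) = |x n| := by
  have h1 := Conj_a_nonneg T n
  rcases T.sign n with h | h <;> rw [h] at h1 ⊢ <;> push_cast at h1 ⊢
  · rw [abs_of_nonpos (by linarith)]; ring
  · rw [abs_of_nonneg (by linarith)]; ring

lemma Conj_step {l : ℝ} {x : ℕ → ℝ} {e : ℕ → ℤ} (T : Tent l x e) (n : ℕ) :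
    x (n + 1) = 1 - l * |x n| := by
  rw [T.step, ← Conj_a_abs T]; ring

lemma Conj_abs_le {l : ℝ} {x : ℕ → ℝ} {e : ℕ → ℤ} (T : Tent l x e) (n : ℕ) : |x n| ≤ 1 := by
  induction n with
  | zero => simp [T.x0]
  | succ n ih =>
    refine abs_le.2 ⟨?_, T.le_one _⟩
    have h1 := T.le_two
    have h2 := abs_nonneg (x n)
    rw [Conj_step T]
    nlinarith

lemma Conj_convex (s : ℂ) (a : ℝ) :
    ‖1 - s * a‖ ^ 2 = (1 - a) + a * ‖1 - s‖ ^ 2 - a * (1 - a) * ‖s‖ ^ 2 := by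
  simp only [Complex.sq_norm, Complex.normSq_apply, Complex.sub_re, Complex.sub_im, Complex.mul_re,
    Complex.mul_im, Complex.one_re, Complex.one_im, Complex.ofReal_re, Complex.ofReal_im]
  ring

theorem Tent.conj_lt {l : ℝ} {x : ℕ → ℝ} {e : ℕ → ℤ} (T : Tent l x e) {z : ℂ}
    (hz : aeval z (minpoly ℚ l) = 0) (hne : z ≠ l) :
    ‖z‖ < √2 ∨ (l = √2 ∧ z = -(√2 : ℝ)) := by
  obtain ⟨N, p, hp, hx, hw⟩ := Conj_per T hz
  have hl1 := T.one_lt
  have hl2 := T.le_two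
  have hd : z - l ≠ 0 := sub_ne_zero.2 hne
  obtain ⟨u, hu⟩ : ∃ u : ℕ → ℂ, ∀ n, u n = (ww e z n - x n) / (z - l) := ⟨_, fun _ => rfl⟩
  have u0 : u 0 = 0 := by rw [hu, ww, T.x0]; simp
  have us : ∀ n, u (n + 1) = e n * (z * u n + x n) := fun n => by
    rw [hu, hu, ww, T.step]; push_cast; field_simp; ring
  have us2 : ∀ n, u (n + 2) = e (n + 1) * (e n * z ^ 2 * u n + (1 - (z + l) * (|x n| : ℝ))) :=
    fun n => by
      rw [us, us, T.step, ← Conj_a_abs T]; push_cast; ring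
  have x1 : |x 1| = l - 1 := by
    rw [Conj_step T, T.x0, abs_one, mul_one, abs_of_nonpos (by linarith)]; ring
  have x2 : x 2 = 1 - l * (l - 1) := by rw [Conj_step T, x1]
  have u1 : ‖u 1‖ = 1 := by
    rw [us, u0, T.x0, norm_mul, Conj_norm_e T.sign]; simp
  have u2 : ‖u 2‖ = ‖1 - (z + l)‖ := by
    rw [us2 0, u0, T.x0, norm_mul, Conj_norm_e T.sign]; simp
  obtain ⟨m, hm⟩ := Conj_max (g := fun n => ‖u n‖) hp fun k => by rw [hu, hu, hx, hw]
  replace hm : ∀ n, ‖u n‖ ≤ ‖u m‖ := hm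
  have key : ∀ n, ‖z‖ ^ 2 * ‖u n‖ ≤ ‖u m‖ + ‖1 - (z + l) * (|x n| : ℝ)‖ := fun n => by
    have h1 : ‖u (n + 2)‖ = ‖e n * z ^ 2 * u n + (1 - (z + l) * (|x n| : ℝ))‖ := by
      rw [us2, norm_mul, Conj_norm_e T.sign, one_mul]
    have h2 : ‖z‖ ^ 2 * ‖u n‖ = ‖e n * z ^ 2 * u n‖ := by
      rw [norm_mul, norm_mul, Conj_norm_e T.sign, one_mul, norm_pow]
    have h3 := norm_sub_le (e n * z ^ 2 * u n + (1 - (z + l) * (|x n| : ℝ)))
      (1 - (z + l) * (|x n| : ℝ))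
    rw [add_sub_cancel_right, ← h1, ← h2] at h3
    linarith [hm (n + 2)]
  obtain ⟨j, hj, hj1, hj2⟩ : ∃ j, (j = 1 ∨ j = 2) ∧ 1 ≤ ‖u j‖ ∧ ‖1 - (z + l)‖ ≤ ‖u j‖ := by
    rcases le_total 1 ‖1 - (z + l)‖ with h | h
    · exact ⟨2, Or.inr rfl, by rw [u2]; exact h, u2.ge⟩
    · exact ⟨1, Or.inl rfl, u1.ge, by rw [u1]; exact h⟩
  have hsq : ∀ n, ‖1 - (z + l) * (|x n| : ℝ)‖ ^ 2 ≤
      ‖u j‖ ^ 2 - |x n| * (1 - |x n|) * ‖z + l‖ ^ 2 := fun n => by
    have h1 := abs_nonneg (x n)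
    have h2 := Conj_abs_le T n
    have h3 : ‖1 - (z + l)‖ ^ 2 ≤ ‖u j‖ ^ 2 := by gcongr
    have h4 : 1 ≤ ‖u j‖ ^ 2 := one_le_pow₀ hj1
    rw [Conj_convex]
    nlinarith [mul_le_mul_of_nonneg_left h3 h1, mul_le_mul_of_nonneg_left h4 (sub_nonneg.2 h2)]
  have hK : ∀ n, ‖1 - (z + l) * (|x n| : ℝ)‖ ≤ ‖u j‖ := fun n => by
    refine (pow_le_pow_iff_left₀ (norm_nonneg _) (norm_nonneg _) two_ne_zero).1 ((hsq n).trans ?_)
    have h1 := abs_nonneg (x n)
    have h2 := sub_nonneg.2 (Conj_abs_le T n)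
    have : 0 ≤ |x n| * (1 - |x n|) * ‖z + l‖ ^ 2 := by positivity
    linarith
  by_cases hlt : ‖z‖ < √2
  · exact Or.inl hlt
  right
  have hz2 : 2 ≤ ‖z‖ ^ 2 := by
    have := pow_le_pow_left₀ (Real.sqrt_nonneg 2) (not_lt.1 hlt) 2
    rwa [Real.sq_sqrt (by norm_num)] at this
  have hjm := hm j
  have hM : ‖u m‖ ≤ ‖u j‖ := by nlinarith [key m, hK m]
  have hz3 : ‖z‖ ^ 2 ≤ 2 := by
    by_contra h
    push Not at h
    nlinarith [key m, hK m]
  have h5 : ‖u j‖ ≤ ‖1 - (z + l) * (|x j| : ℝ)‖ := by nlinarith [key j]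
  have h6 : |x j| * (1 - |x j|) * ‖z + l‖ ^ 2 = 0 := by
    have h1 := abs_nonneg (x j)
    have h2 := sub_nonneg.2 (Conj_abs_le T j)
    have h3 : ‖u j‖ ^ 2 ≤ ‖1 - (z + l) * (|x j| : ℝ)‖ ^ 2 := by gcongr
    exact le_antisymm (by linarith [hsq j]) (by positivity)
  have hl : l ≠ 2 := fun h => hne (by
    have := Conj_root hz (q := X - 2) (by simp [h, map_ofNat])
    rw [h]
    simpa [sub_eq_zero, map_ofNat] using this)
  have hg : l ^ 2 ≠ l + 1 := fun h => by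
    have h1 := Conj_root hz (q := X ^ 2 - X - 1) (by simp; linarith)
    have h2 : z ^ 2 - z - 1 = 0 := by simpa using h1
    have h3 : (l : ℂ) ^ 2 = l + 1 := by exact_mod_cast h
    have h4 : z = ((1 - l : ℝ) : ℂ) := by
      apply mul_left_cancel₀ hd
      push_cast
      linear_combination h2 - h3
    rw [h4, Complex.norm_real, Real.norm_eq_abs, sq_abs] at hz2
    nlinarith
  rcases mul_eq_zero.1 h6 with h7 | h7
  · exfalso
    rcases hj with rfl | rfl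
    · rw [x1] at h7
      rcases mul_eq_zero.1 h7 with h | h
      · linarith
      · exact hl (by linarith)
    · rcases mul_eq_zero.1 h7 with h | h
      · rw [abs_eq_zero, x2] at h
        exact hg (by linarith)
      · have h8 : |x 2| = 1 := by linarith
        rw [x2] at h8
        rcases (abs_eq zero_le_one).1 h8 with h9 | h9
        · nlinarith
        · have : (l - 2) * (l + 1) = 0 := by linarith
          rcases mul_eq_zero.1 this with h | h
          · exact hl (by linarith)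
          · linarith
  · have h8 : z = -(l : ℂ) := by
      rw [pow_eq_zero_iff two_ne_zero, norm_eq_zero] at h7
      linear_combination h7
    have h9 : l ^ 2 = 2 := by
      rw [h8, norm_neg, Complex.norm_real, Real.norm_eq_abs, sq_abs] at hz2 hz3
      linarith
    have h10 : l = √2 := by
      rw [← h9, Real.sqrt_sq (by linarith)]
    exact ⟨h10, by rw [h8, h10]⟩

end Pool.Agent.MP_994d64_an
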