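import Mathlib

/-!
Milnor Thurston kneading data for the real quadratic map `x ↦ x ^ 2 + c`.
A doubled point `(x, true)` stands for the right side of `x`, `(x, false)` for the left side.
-/

namespace Pool.Agent.MP_994d64_an

open Classical in
/-- The doubled point lies on the increasing lap. -/
noncomputable def pos (P : ℝ × Bool) : Bool := decide (0 < P.1 ∨ (P.1 = 0 ∧ P.2 = true))

/-- Sign of the lap. -/
noncomputable def eps (P : ℝ × Bool) : ℤ := if pos P then 1 else -1

/-- The quadratic map on doubled points. -/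
noncomputable def F (c : ℝ) (P : ℝ × Bool) : ℝ × Bool :=
  (P.1 ^ 2 + c, if pos P then P.2 else !P.2)

/-- Lexicographic order on doubled points. -/
def LE2 (P Q : ℝ × Bool) : Prop := P.1 < Q.1 ∨ (P.1 = Q.1 ∧ (P.2 = true → Q.2 = true))

/-- Product of the first `n + 1` signs along the orbit. -/
noncomputable def th (c : ℝ) : ℕ → ℝ × Bool → ℤ
  | 0, P => eps P
  | n + 1, P => eps P * th c n (F c P)

/-- Coefficients of the kneading determinant. -/
noncomputable def dd (c : ℝ) : ℕ → ℤ
  | 0 => 1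
  | m + 1 => th c m (c, true)

/-- Number of points between `P` and `Q` that hit the critical point first at time `k`. -/
noncomputable def gg (c : ℝ) : ℕ → ℝ × Bool → ℝ × Bool → ℕ
  | 0, P, Q => if pos P = false ∧ pos Q = true then 1 else 0
  | k + 1, P, Q =>
      if pos P then gg c k (F c P) (F c Q)
      else if pos Q then gg c k (c, true) (F c P) + gg c k (c, true) (F c Q)
      else gg c k (F c Q) (F c P)

/-- The fixed point `β`. -/
noncomputable def be (c : ℝ) : ℝ := (1 + √(1 - 4 * c)) / 2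

/-- The count for the whole interval. -/
noncomputable def GG (c : ℝ) (k : ℕ) : ℕ := gg c k (-be c, true) (be c, false)

/-- Twisted itinerary series. -/
noncomputable def Th (c : ℝ) (P : ℝ × Bool) (t : ℝ) : ℝ := ∑' n, (th c n P : ℝ) * t ^ n

/-- Kneading determinant. -/
noncomputable def DD (c : ℝ) (t : ℝ) : ℝ := ∑' n, (dd c n : ℝ) * t ^ n

/-- Topological entropy of the quadratic map on `[-β, β]`. -/
noncomputable def ent (c : ℝ) : EReal :=
  Dynamics.coverEntropy (fun x : ℝ => x ^ 2 + c) (Set.Icc (-be c) (be c))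

/-- The critical orbit is finite. -/
def PCF (c : ℝ) : Prop := (Set.range fun n : ℕ => (fun x : ℝ => x ^ 2 + c)^[n + 1] 0).Finite

/-- A critical orbit of the tent map of slope `l` with its signs, eventually periodic. -/
structure Tent (l : ℝ) (x : ℕ → ℝ) (e : ℕ → ℤ) : Prop where
  one_lt : 1 < l
  le_two : l ≤ 2
  x0 : x 0 = 1
  sign : ∀ n, e n = 1 ∨ e n = -1
  step : ∀ n, x (n + 1) = 1 + e n * l * x n
  le_one : ∀ n, x n ≤ 1
  per : ∃ n p, 0 < p ∧ x (n + p) = x n ∧ ∀ k, e (n + k + p) = e (n + k)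

/-- The orbit with the same signs and slope `z`. -/
noncomputable def ww (e : ℕ → ℤ) (z : ℂ) : ℕ → ℂ
  | 0 => 1
  | n + 1 => 1 + e n * z * ww e z n

lemma be_sq {c : ℝ} (h : c ≤ 1 / 4) : be c ^ 2 + c = be c := by
  have : √(1 - 4 * c) ^ 2 = 1 - 4 * c := Real.sq_sqrt (by linarith)
  unfold be; nlinarith

lemma be_ge (c : ℝ) : 1 / 2 ≤ be c := by
  have := Real.sqrt_nonneg (1 - 4 * c)
  unfold be; linarith

lemma be_le {c : ℝ} (h : -2 ≤ c) : be c ≤ 2 := by
  have : √(1 - 4 * c) ≤ 3 := Real.sqrt_le_iff.2 ⟨by norm_num, by linarith⟩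
  unfold be; linarith

lemma mapsTo {c : ℝ} (h1 : -2 ≤ c) (h2 : c ≤ 1 / 4) :
    Set.MapsTo (fun x : ℝ => x ^ 2 + c) (Set.Icc (-be c) (be c)) (Set.Icc (-be c) (be c)) := by
  intro x hx
  have := be_sq h2; have := be_ge c; have := be_le h1
  constructor
  · show -be c ≤ x ^ 2 + c
    nlinarith [sq_nonneg x]
  · show x ^ 2 + c ≤ be c
    nlinarith [hx.1, hx.2]

end Pool.Agent.MP_994d64_an
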