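import Pool.Agent.MP_994d64_an.Defs

namespace Pool.Agent.MP_994d64_an

lemma Examples_abs_eps (P : ℝ × Bool) : |(eps P : ℝ)| = 1 := by
  unfold eps; split_ifs <;> simp

theorem abs_th (c : ℝ) (n : ℕ) (P : ℝ × Bool) : |(th c n P : ℝ)| = 1 := by
  induction n generalizing P with
  | zero => exact Examples_abs_eps P
  | succ n ih =>
    simp only [th, Int.cast_mul, abs_mul, Examples_abs_eps, ih, one_mul]

lemma Examples_summable (c : ℝ) (P : ℝ × Bool) {t : ℝ} (ht0 : 0 ≤ t) (ht1 : t < 1) :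
    Summable fun n => (th c n P : ℝ) * t ^ n := by
  refine Summable.of_norm_bounded (summable_geometric_of_lt_one ht0 ht1) fun n => ?_
  rw [Real.norm_eq_abs, abs_mul, abs_th, one_mul, abs_of_nonneg (pow_nonneg ht0 n)]

theorem Th_eq (c : ℝ) (P : ℝ × Bool) {t : ℝ} (ht0 : 0 ≤ t) (ht1 : t < 1) :
    Th c P t = eps P * (1 + t * Th c (F c P) t) := by
  unfold Th
  rw [(Examples_summable c P ht0 ht1).tsum_eq_zero_add, mul_add, ← tsum_mul_left, ← tsum_mul_left]
  congr 1
  refine tsum_congr fun n => ?_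
  simp only [th, Int.cast_mul]
  ring

theorem DD_eq (c : ℝ) {t : ℝ} (ht0 : 0 ≤ t) (ht1 : t < 1) :
    DD c t = 1 + t * Th c (c, true) t := by
  have h1 : Summable fun n => (dd c (n + 1) : ℝ) * t ^ (n + 1) := by
    refine ((Examples_summable c (c, true) ht0 ht1).mul_left t).congr fun n => ?_
    simp only [dd]; ring
  have h2 : Summable fun n => (dd c n : ℝ) * t ^ n := (summable_nat_add_iff 1).1 h1
  unfold DD Th
  rw [h2.tsum_eq_zero_add, ← tsum_mul_left]
  congr 1
  · simp [dd]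
  · refine tsum_congr fun n => ?_
    simp only [dd]; ring

theorem PCF.mem {c : ℝ} (h : PCF c) : -2 ≤ c ∧ c ≤ 1 / 4 := by
  constructor
  · by_contra hc
    rw [not_le] at hc
    let b : ℕ → ℝ := fun n => (fun x : ℝ => x ^ 2 + c)^[n + 1 + 1] 0
    have hs : ∀ n, b (n + 1) = b n ^ 2 + c := fun n => Function.iterate_succ_apply' _ _ _
    have hb : ∀ n, -c ≤ b n := by
      intro n
      induction n with
      | zero =>
        have : b 0 = (0 ^ 2 + c) ^ 2 + c := rfl
        rw [this]; nlinarith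
      | succ n ih => rw [hs]; nlinarith
    have hm : StrictMono b := strictMono_nat_of_lt_succ fun n => by
      have := hb n
      rw [hs]; nlinarith
    refine Set.infinite_range_of_injective hm.injective (h.subset ?_)
    rintro _ ⟨n, rfl⟩
    exact ⟨n + 1, rfl⟩
  · by_contra hc
    rw [not_le] at hc
    have hm : StrictMono fun n : ℕ => (fun x : ℝ => x ^ 2 + c)^[n + 1] 0 :=
      strictMono_nat_of_lt_succ fun n => by
        rw [Function.iterate_succ_apply' _ (n + 1)]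
        nlinarith [sq_nonneg ((fun x : ℝ => x ^ 2 + c)^[n + 1] 0 - 1 / 2)]
    exact Set.infinite_range_of_injective hm.injective h

lemma Examples_pcf {c : ℝ} {S : Set ℝ} (hS : S.Finite) (hc : c ∈ S)
    (hm : ∀ x ∈ S, x ^ 2 + c ∈ S) : PCF c := by
  refine hS.subset ?_
  rintro _ ⟨n, rfl⟩
  induction n with
  | zero => simpa using hc
  | succ n ih =>
    show (fun x : ℝ => x ^ 2 + c)^[n + 1 + 1] 0 ∈ S
    rw [Function.iterate_succ_apply']
    exact hm _ ih

lemma Examples_neg (c : ℝ) {x y : ℝ} (b : Bool) (hx : x < 0) (hy : x ^ 2 + c = y) {t : ℝ}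
    (ht0 : 0 ≤ t) (ht1 : t < 1) : Th c (x, b) t = -(1 + t * Th c (y, !b) t) := by
  have hp : pos (x, b) = false := by
    unfold pos; simp [hx.ne, hx.le]
  rw [Th_eq c _ ht0 ht1]
  simp [eps, F, hp, hy]

lemma Examples_pos (c : ℝ) {x y : ℝ} (b : Bool) (hx : 0 < x) (hy : x ^ 2 + c = y) {t : ℝ}
    (ht0 : 0 ≤ t) (ht1 : t < 1) : Th c (x, b) t = 1 + t * Th c (y, b) t := by
  have hp : pos (x, b) = true := by
    unfold pos; simp [hx]
  rw [Th_eq c _ ht0 ht1]
  simp [eps, F, hp, hy]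

lemma Examples_zero_true (c : ℝ) {t : ℝ} (ht0 : 0 ≤ t) (ht1 : t < 1) :
    Th c (0, true) t = 1 + t * Th c (c, true) t := by
  have hp : pos (0, true) = true := by
    unfold pos; simp
  rw [Th_eq c _ ht0 ht1]
  simp [eps, F, hp]

lemma Examples_zero_false (c : ℝ) {t : ℝ} (ht0 : 0 ≤ t) (ht1 : t < 1) :
    Th c (0, false) t = -(1 + t * Th c (c, true) t) := by
  have hp : pos (0, false) = false := by
    unfold pos; simp
  rw [Th_eq c _ ht0 ht1]
  simp [eps, F, hp]

theorem ex_one : ∃ c, PCF c ∧ ∀ t, 0 ≤ t → t < 1 → DD c t = 1 / (1 - t) := by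
  refine ⟨0, Examples_pcf (Set.finite_singleton 0) rfl (by simp), fun t ht0 ht1 => ?_⟩
  have h := Examples_zero_true 0 ht0 ht1
  have h1 : 1 - t ≠ 0 := by linarith
  rw [DD_eq 0 ht0 ht1, eq_div_iff h1]
  linear_combination t * h

theorem ex_two : ∃ c, PCF c ∧ ∀ t, 0 ≤ t → t < 1 → DD c t = (1 - 2 * t) / (1 - t) := by
  refine ⟨-2, Examples_pcf (S := {-2, 2}) (Set.toFinite _) (by simp) ?_, fun t ht0 ht1 => ?_⟩
  · rintro x (rfl | rfl) <;> right <;> norm_num
  have hA := Examples_neg (-2) (x := -2) (y := 2) true (by norm_num) (by norm_num) ht0 ht1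
  have hB := Examples_pos (-2) (x := 2) (y := 2) false (by norm_num) (by norm_num) ht0 ht1
  simp only [Bool.not_true] at hA
  have h1 : 1 - t ≠ 0 := by linarith
  rw [DD_eq _ ht0 ht1, eq_div_iff h1, hA]
  linear_combination (-t ^ 2) * hB

theorem ex_gold : ∃ c, PCF c ∧ ∀ t, 0 ≤ t → t < 1 → DD c t = (1 - t - t ^ 2) / (1 - t ^ 3) := by
  obtain ⟨c, hc, hr⟩ : ∃ c ∈ Set.Icc (-2 : ℝ) (-3 / 2), c ^ 3 + 2 * c ^ 2 + c + 1 = 0 :=
    intermediate_value_Icc (f := fun c : ℝ => c ^ 3 + 2 * c ^ 2 + c + 1) (by norm_num)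
      (by fun_prop) ⟨by norm_num, by norm_num⟩
  have hc0 : c < 0 := by linarith [hc.2]
  have hu : 0 < c ^ 2 + c := by nlinarith [hc.2]
  have hz : (c ^ 2 + c) ^ 2 + c = 0 := by linear_combination c * hr
  refine ⟨c, Examples_pcf (S := {c, c ^ 2 + c, 0}) (Set.toFinite _) (by simp) ?_,
    fun t ht0 ht1 => ?_⟩
  · rintro x (rfl | rfl | rfl)
    · simp
    · simp [hz]
    · simp
  have hA := Examples_neg c true hc0 rfl ht0 ht1
  have hB := Examples_pos c false hu hz ht0 ht1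
  have hC := Examples_zero_false c ht0 ht1
  simp only [Bool.not_true] at hA
  have h1 : 1 - t ^ 3 ≠ 0 := by
    have := pow_lt_one₀ ht0 ht1 (n := 3) (by norm_num)
    linarith
  rw [DD_eq _ ht0 ht1, eq_div_iff h1]
  linear_combination t * hA - t ^ 2 * hB - t ^ 3 * hC

theorem ex_sqrt : ∃ c, PCF c ∧ ∀ t, 0 ≤ t → t < 1 → DD c t = (1 - 2 * t ^ 2) / (1 + t) := by
  obtain ⟨c, hc, hr⟩ : ∃ c ∈ Set.Icc (-2 : ℝ) (-3 / 2), c ^ 3 + 2 * c ^ 2 + 2 * c + 2 = 0 :=
    intermediate_value_Icc (f := fun c : ℝ => c ^ 3 + 2 * c ^ 2 + 2 * c + 2) (by norm_num)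
      (by fun_prop) ⟨by norm_num, by norm_num⟩
  have hc0 : c < 0 := by linarith [hc.2]
  have hu : 0 < c ^ 2 + c := by nlinarith [hc.2]
  have hz : (c ^ 2 + c) ^ 2 + c = -(c ^ 2 + c) := by linear_combination c * hr
  have hz' : (-(c ^ 2 + c)) ^ 2 + c = -(c ^ 2 + c) := by linear_combination c * hr
  have hal : -(c ^ 2 + c) < 0 := by linarith
  refine ⟨c, Examples_pcf (S := {c, c ^ 2 + c, -(c ^ 2 + c)}) (Set.toFinite _) (by simp) ?_,
    fun t ht0 ht1 => ?_⟩
  · rintro x (rfl | rfl | rfl)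
    · right; left; rfl
    · right; right; exact hz
    · right; right; exact hz'
  have hA := Examples_neg c true hc0 rfl ht0 ht1
  have hB := Examples_pos c false hu hz ht0 ht1
  have hX := Examples_neg c false hal hz' ht0 ht1
  have hY := Examples_neg c true hal hz' ht0 ht1
  simp only [Bool.not_true, Bool.not_false] at hA hX hY
  have h1 : 1 + t ≠ 0 := by linarith
  have h2 : 1 - t ≠ 0 := by linarith
  have hX' : (1 + t) * Th c (-(c ^ 2 + c), false) t = -1 := by
    apply mul_left_cancel₀ h2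
    linear_combination hX - t * hY
  rw [DD_eq _ ht0 ht1, eq_div_iff h1, hA, hB]
  linear_combination (-t ^ 3) * hX'

end Pool.Agent.MP_994d64_an
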