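import Pool.Agent.MP_994d64_an.Defs

namespace Pool.Agent.MP_994d64_an

open Finset

lemma pos_iff (P : ℝ × Bool) : pos P = true ↔ 0 < P.1 ∨ (P.1 = 0 ∧ P.2 = true) := by
  unfold pos; simp only [decide_eq_true_eq]

lemma not_pos_iff (P : ℝ × Bool) : pos P = false ↔ P.1 < 0 ∨ (P.1 = 0 ∧ P.2 = false) := by
  rw [← Bool.not_eq_true, pos_iff]
  rcases lt_trichotomy P.1 0 with h | h | h
  · simp [h, h.ne, h.le]
  · simp [h]
  · simp [h, h.ne', h.le]

lemma LE2.pos_of {P Q : ℝ × Bool} (h : LE2 P Q) (hP : pos P = true) : pos Q = true := by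
  rw [pos_iff] at *
  rcases h with h | ⟨h, h'⟩
  · left; rcases hP with hP | ⟨hP, _⟩ <;> linarith
  · rcases hP with hP | ⟨hP, hP'⟩
    · left; linarith
    · right; exact ⟨by linarith, h' hP'⟩

lemma LE2.F_pos (c : ℝ) {P Q : ℝ × Bool} (h : LE2 P Q) (hP : pos P = true) :
    LE2 (F c P) (F c Q) := by
  have hQ := h.pos_of hP
  have h0 : 0 ≤ P.1 := by rcases (pos_iff P).1 hP with h | ⟨h, _⟩ <;> linarith
  unfold F
  simp only [hP, hQ, if_true]
  rcases h with h | ⟨h, h'⟩
  · left; show P.1 ^ 2 + c < Q.1 ^ 2 + c; nlinarith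
  · right; exact ⟨by show P.1 ^ 2 + c = Q.1 ^ 2 + c; rw [h], h'⟩

lemma LE2.F_neg (c : ℝ) {P Q : ℝ × Bool} (h : LE2 P Q) (hP : pos P = false) (hQ : pos Q = false) :
    LE2 (F c Q) (F c P) := by
  have h0 : Q.1 ≤ 0 := by rcases (not_pos_iff Q).1 hQ with h | ⟨h, _⟩ <;> linarith
  unfold F
  simp only [hP, hQ, Bool.false_eq_true, if_false]
  rcases h with h | ⟨h, h'⟩
  · left; show Q.1 ^ 2 + c < P.1 ^ 2 + c; nlinarith
  · right
    refine ⟨by show Q.1 ^ 2 + c = P.1 ^ 2 + c; rw [h], ?_⟩
    show (!Q.2) = true → (!P.2) = true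
    cases h1 : P.2 <;> cases h2 : Q.2 <;> simp_all

lemma crit_le (c : ℝ) (P : ℝ × Bool) : LE2 (c, true) (F c P) := by
  rcases eq_or_ne P.1 0 with h | h
  · right
    refine ⟨by simp [F, h], fun _ => ?_⟩
    cases h2 : P.2
    · have : pos P = false := (not_pos_iff P).2 (Or.inr ⟨h, h2⟩)
      simp [F, this, h2]
    · have : pos P = true := (pos_iff P).2 (Or.inr ⟨h, h2⟩)
      simp [F, this, h2]
  · left
    show c < P.1 ^ 2 + c
    have := sq_pos_of_ne_zero h
    linarith

lemma ident (c : ℝ) (n : ℕ) : ∀ P Q : ℝ × Bool, LE2 P Q →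
    th c n Q - th c n P = 2 * ∑ k ∈ range (n + 1), (gg c k P Q : ℤ) * dd c (n - k) := by
  induction n with
  | zero =>
    intro P Q h
    cases hP : pos P
    · cases hQ : pos Q <;> simp [th, gg, dd, eps, hP, hQ]
    · have hQ := h.pos_of hP
      simp [th, gg, dd, eps, hP, hQ]
  | succ n ih =>
    intro P Q h
    rw [sum_range_succ']
    simp only [Nat.add_sub_add_right, Nat.sub_zero]
    cases hP : pos P
    · cases hQ : pos Q
      · have := ih _ _ (h.F_neg c hP hQ)
        simp only [th, gg, eps, hP, hQ, Bool.false_eq_true, if_false, and_false]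
        push_cast
        linarith
      · have h1 := ih _ _ (crit_le c P)
        have h2 := ih _ _ (crit_le c Q)
        have h3 : dd c (n + 1) = th c n (c, true) := rfl
        simp only [th, gg, eps, hP, hQ, Bool.false_eq_true, if_false, if_true, and_self, h3]
        push_cast
        simp only [add_mul, sum_add_distrib]
        linarith
    · have hQ := h.pos_of hP
      have := ih _ _ (h.F_pos c hP)
      simp only [th, gg, eps, hP, hQ, if_true, Bool.true_eq_false, false_and, if_false]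
      push_cast
      linarith

lemma th_top {c : ℝ} (h : c ≤ 1 / 4) (n : ℕ) : th c n (be c, false) = 1 := by
  have hp : pos (be c, false) = true := (pos_iff _).2 (Or.inl (by have := be_ge c; show 0 < be c; linarith))
  induction n with
  | zero => simp [th, eps, hp]
  | succ n ih => simp [th, eps, hp, F, be_sq h, ih]

lemma th_bot {c : ℝ} (h : c ≤ 1 / 4) (n : ℕ) : th c n (-be c, true) = -1 := by
  have hp : pos (-be c, true) = false :=
    (not_pos_iff _).2 (Or.inl (by have := be_ge c; show -be c < 0; linarith))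
  cases n with
  | zero => simp [th, eps, hp]
  | succ n => simp [th, eps, hp, F, be_sq h, th_top h]

lemma ident_GG {c : ℝ} (h : c ≤ 1 / 4) (n : ℕ) :
    ∑ k ∈ range (n + 1), (GG c k : ℝ) * (dd c (n - k) : ℝ) = 1 := by
  have h1 := ident c n (-be c, true) (be c, false)
    (Or.inl (by have := be_ge c; show -be c < be c; linarith))
  rw [th_top h, th_bot h] at h1
  have h2 : ∑ k ∈ range (n + 1), (GG c k : ℤ) * dd c (n - k) = 1 := by unfold GG; linarith
  exact_mod_cast h2

end Pool.Agent.MP_994d64_an
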