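import Pool.Agent.MP_994d64_an.Defs

namespace Pool.Agent.MP_994d64_an

open Filter Topology

/-- There are `n` points between `P` and `Q` that are mapped to `0` at time `k`. -/
def LowerGood (c : ℝ) (k : ℕ) (P Q : ℝ × Bool) (n : ℕ) : Prop :=
  ∃ S : Finset ℝ, S.card = n ∧
    ∀ p ∈ S, LE2 P (p, false) ∧ LE2 (p, true) Q ∧ (fun x : ℝ => x ^ 2 + c)^[k] p = 0

lemma Lower_up (c : ℝ) {a b : ℝ} (ha : 0 ≤ a) (hb : 0 ≤ b) (u v : Bool) :
    LE2 (a ^ 2 + c, u) (b ^ 2 + c, v) ↔ LE2 (a, u) (b, v) := by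
  simp only [LE2, add_lt_add_iff_right, add_left_inj, sq_lt_sq₀ ha hb, sq_eq_sq₀ ha hb]

lemma Lower_dn (c : ℝ) {a b : ℝ} (ha : a ≤ 0) (hb : b ≤ 0) (u v : Bool) :
    LE2 (b ^ 2 + c, !v) (a ^ 2 + c, !u) ↔ LE2 (a, u) (b, v) := by
  rw [← neg_sq a, ← neg_sq b, Lower_up c (neg_nonneg.2 hb) (neg_nonneg.2 ha)]
  cases u <;> cases v <;> simp [LE2, eq_comm]

lemma Lower_le {P Q : ℝ × Bool} (h : LE2 P Q) : P.1 ≤ Q.1 := h.elim le_of_lt fun h => h.1.le

lemma Lower_lt {a b : ℝ} (h : LE2 (a, true) (b, false)) : a < b := by simpa [LE2] using h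

lemma Lower_pos {P : ℝ × Bool} : pos P = true ↔ LE2 (0, true) P := by
  simp [pos, LE2, eq_comm (a := (0 : ℝ))]

lemma Lower_neg {P : ℝ × Bool} : ¬ pos P = true ↔ LE2 P (0, false) := by
  obtain ⟨a, u⟩ := P
  rcases lt_trichotomy a 0 with h | h | h
  · simp [pos, LE2, h, h.ne, h.not_gt]
  · simp [pos, LE2, h]
  · simp [pos, LE2, h, h.ne', h.not_gt]

lemma Lower_right {c : ℝ} {k n : ℕ} {a b : ℝ} (ha : 0 ≤ a) (hb : 0 ≤ b) {u v : Bool}
    (h : LowerGood c k (a ^ 2 + c, u) (b ^ 2 + c, v) n) : LowerGood c (k + 1) (a, u) (b, v) n := by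
  obtain ⟨S, hS, h⟩ := h
  have e : ∀ q ∈ S, √(q - c) ^ 2 + c = q := fun q hq => by
    have := Lower_le (h q hq).1
    rw [Real.sq_sqrt (by nlinarith), sub_add_cancel]
  refine ⟨S.image fun q => √(q - c), ?_, fun p hp => ?_⟩
  · rw [Finset.card_image_of_injOn fun q hq q' hq' (h' : √(q - c) = √(q' - c)) => by
      rw [← e q hq, h', e q' hq'], hS]
  · obtain ⟨q, hq, rfl⟩ := Finset.mem_image.1 hp
    rw [← Lower_up c ha (Real.sqrt_nonneg _), ← Lower_up c (Real.sqrt_nonneg _) hb,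
      Function.iterate_succ_apply, e q hq]
    exact h q hq

lemma Lower_left {c : ℝ} {k n : ℕ} {a b : ℝ} (ha : a ≤ 0) (hb : b ≤ 0) {u v : Bool}
    (h : LowerGood c k (b ^ 2 + c, !v) (a ^ 2 + c, !u) n) :
    LowerGood c (k + 1) (a, u) (b, v) n := by
  obtain ⟨S, hS, h⟩ := h
  have e : ∀ q ∈ S, (-√(q - c)) ^ 2 + c = q := fun q hq => by
    have := Lower_le (h q hq).1
    rw [neg_sq, Real.sq_sqrt (by nlinarith), sub_add_cancel]
  refine ⟨S.image fun q => -√(q - c), ?_, fun p hp => ?_⟩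
  · rw [Finset.card_image_of_injOn fun q hq q' hq' (h' : -√(q - c) = -√(q' - c)) => by
      rw [← e q hq, h', e q' hq'], hS]
  · obtain ⟨q, hq, rfl⟩ := Finset.mem_image.1 hp
    have h0 : -√(q - c) ≤ 0 := neg_nonpos.2 (Real.sqrt_nonneg _)
    rw [← Lower_dn c ha h0, ← Lower_dn c h0 hb, Function.iterate_succ_apply, e q hq]
    exact ⟨(h q hq).2.1, (h q hq).1, (h q hq).2.2⟩

lemma Lower_good (c : ℝ) (k : ℕ) : ∀ P Q, LE2 P Q → LowerGood c k P Q (gg c k P Q) := by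
  induction k with
  | zero =>
    intro P Q _
    rw [gg]
    split_ifs with h
    · refine ⟨{0}, rfl, fun p hp => ?_⟩
      rw [Finset.mem_singleton.1 hp]
      exact ⟨Lower_neg.1 (by simp [h.1]), Lower_pos.1 h.2, rfl⟩
    · exact ⟨∅, rfl, by simp⟩
  | succ k ih =>
    rintro ⟨a, u⟩ ⟨b, v⟩ h
    rw [gg]
    by_cases hP : pos (a, u) = true
    · have ha : 0 ≤ a := Lower_le (Lower_pos.1 hP)
      have hb : 0 ≤ b := ha.trans (Lower_le h)
      have hQ : pos (b, v) = true := by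
        rw [Lower_pos] at hP ⊢
        rcases hP with h1 | h1 <;> rcases h with h2 | h2
        · exact Or.inl (h1.trans h2)
        · exact Or.inl (h1.trans_eq h2.1)
        · exact Or.inl (h1.1.trans_lt h2)
        · exact Or.inr ⟨h1.1.trans h2.1, fun h => h2.2 (h1.2 h)⟩
      simp only [F, hP, hQ, if_true]
      exact Lower_right ha hb (ih _ _ ((Lower_up c ha hb u v).2 h))
    · have ha : a ≤ 0 := Lower_le (Lower_neg.1 hP)
      by_cases hQ : pos (b, v) = true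
      · have hb : 0 ≤ b := Lower_le (Lower_pos.1 hQ)
        have e : c = 0 ^ 2 + c := by simp
        simp only [F, hP, hQ, if_true, Bool.false_eq_true, if_false]
        have h1 := ih _ _ ((Lower_dn c ha le_rfl u false).2 (Lower_neg.1 hP))
        have h2 := ih _ _ ((Lower_up c le_rfl hb true v).2 (Lower_pos.1 hQ))
        obtain ⟨S, hS, h1⟩ := Lower_left ha le_rfl h1
        obtain ⟨T, hT, h2⟩ := Lower_right le_rfl hb h2
        rw [← e] at hS hT
        refine ⟨S.disjUnion T (Finset.disjoint_left.2 fun p hp hp' =>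
          (Lower_lt (h1 p hp).2.1).not_gt (Lower_lt (h2 p hp').1)), ?_, fun p hp => ?_⟩
        · rw [Finset.card_disjUnion, hS, hT]
          rfl
        · rcases Finset.mem_disjUnion.1 hp with hp | hp
          · exact ⟨(h1 p hp).1, Or.inl ((Lower_lt (h1 p hp).2.1).trans_le hb), (h1 p hp).2.2⟩
          · exact ⟨Or.inl (ha.trans_lt (Lower_lt (h2 p hp).1)), (h2 p hp).2.1, (h2 p hp).2.2⟩
      · have hb : b ≤ 0 := Lower_le (Lower_neg.1 hQ)
        simp only [F, hP, hQ, Bool.false_eq_true, if_false]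
        exact Lower_left ha hb (ih _ _ ((Lower_dn c ha hb u v).2 h))

lemma Lower_finite (c : ℝ) (j : ℕ) : {p : ℝ | (fun x : ℝ => x ^ 2 + c)^[j] p = 0}.Finite := by
  induction j with
  | zero => simp
  | succ j ih =>
    refine ((ih.image fun q => √(q - c)).union (ih.image fun q => -√(q - c))).subset fun p hp => ?_
    rcases le_total 0 p with h | h
    · exact Or.inl ⟨p ^ 2 + c, hp, by simp [Real.sqrt_sq h]⟩
    · exact Or.inr ⟨p ^ 2 + c, hp, by simp [Real.sqrt_sq_eq_abs, abs_of_nonpos h]⟩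

lemma Lower_rolle (c : ℝ) {a b : ℝ} (hab : a < b) (m : ℕ)
    (h : (fun x : ℝ => x ^ 2 + c)^[m] a = (fun x : ℝ => x ^ 2 + c)^[m] b) :
    ∃ z ∈ Set.Ioo a b, ∃ j < m, (fun x : ℝ => x ^ 2 + c)^[j] z = 0 := by
  induction m with
  | zero => exact absurd h hab.ne
  | succ m ih =>
    by_cases h1 : (fun x : ℝ => x ^ 2 + c)^[m] a = (fun x : ℝ => x ^ 2 + c)^[m] b
    · obtain ⟨z, hz, j, hj, e⟩ := ih h1
      exact ⟨z, hz, j, by omega, e⟩
    · have hc : Continuous (fun x : ℝ => x ^ 2 + c)^[m] := Continuous.iterate (by fun_prop) m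
      rw [Function.iterate_succ_apply', Function.iterate_succ_apply', add_left_inj,
        sq_eq_sq_iff_eq_or_eq_neg] at h
      have h2 := h.resolve_left h1
      rcases lt_or_gt_of_ne h1 with h3 | h3
      · obtain ⟨z, hz, e⟩ := intermediate_value_Ioo hab.le hc.continuousOn
          (show (0 : ℝ) ∈ _ from ⟨by linarith, by linarith⟩)
        exact ⟨z, hz, m, by omega, e⟩
      · obtain ⟨z, hz, e⟩ := intermediate_value_Ioo' hab.le hc.continuousOn
          (show (0 : ℝ) ∈ _ from ⟨by linarith, by linarith⟩)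
        exact ⟨z, hz, m, by omega, e⟩

lemma Lower_two (c : ℝ) (m : ℕ) : ∃ ε > 0, ∀ j ≤ m, ∀ (q : ℝ) (B : Finset ℝ),
    (∀ x ∈ B, (fun x : ℝ => x ^ 2 + c)^[j] x = q) → (∀ x ∈ B, ∀ y ∈ B, dist x y < ε) →
      B.card ≤ 2 := by
  have hZ : (⋃ j ∈ Set.Iio m, {p : ℝ | (fun x : ℝ => x ^ 2 + c)^[j] p = 0}).Finite :=
    (Set.finite_Iio m).biUnion fun j _ => Lower_finite c j
  have h : ∀ᶠ ε in 𝓝[>] (0 : ℝ), ∀ x ∈ ⋃ j ∈ Set.Iio m, {p : ℝ | (fun x : ℝ => x ^ 2 + c)^[j] p = 0},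
      ∀ y ∈ ⋃ j ∈ Set.Iio m, {p : ℝ | (fun x : ℝ => x ^ 2 + c)^[j] p = 0}, x < y → ε ≤ y - x :=
    (eventually_all_finite hZ).2 fun x _ => (eventually_all_finite hZ).2 fun y _ => by
      by_cases hxy : x < y
      · filter_upwards [Ioc_mem_nhdsGT (sub_pos.2 hxy)] with ε hε _ using hε.2
      · exact Eventually.of_forall fun _ h => absurd h hxy
  obtain ⟨ε, h1, h2⟩ := (h.and self_mem_nhdsWithin).exists
  refine ⟨ε, h2, fun j hj q B hq hB => ?_⟩
  by_contra hc
  have h3 : 3 ≤ B.card := by omega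
  have hm := B.orderEmbOfCardLe_mem h3
  have hs := (B.orderEmbOfCardLe h3).strictMono
  obtain ⟨z, hz, i, hi, e⟩ := Lower_rolle c (hs (show (0 : Fin 3) < 1 by decide)) j
    ((hq _ (hm 0)).trans (hq _ (hm 1)).symm)
  obtain ⟨z', hz', i', hi', e'⟩ := Lower_rolle c (hs (show (1 : Fin 3) < 2 by decide)) j
    ((hq _ (hm 1)).trans (hq _ (hm 2)).symm)
  have h4 := h1 z (Set.mem_biUnion (show i ∈ Set.Iio m from hi.trans_le hj) e) z'
    (Set.mem_biUnion (show i' ∈ Set.Iio m from hi'.trans_le hj) e') (hz.2.trans hz'.1)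
  have h5 := (abs_lt.1 ((Real.dist_eq _ _).symm.trans_lt (hB _ (hm 2) _ (hm 0)))).2
  linarith [hz.1, hz'.2]

lemma Lower_pow {f : ℝ → ℝ} {m : ℕ} {ε : ℝ} (h : ∀ j ≤ m, ∀ (q : ℝ) (B : Finset ℝ),
    (∀ x ∈ B, f^[j] x = q) → (∀ x ∈ B, ∀ y ∈ B, dist x y < ε) → B.card ≤ 2) (q : ℝ) (n : ℕ) :
    ∀ K ≤ n * m, ∀ B : Finset ℝ, (∀ x ∈ B, f^[K] x = q) →
      (∀ x ∈ B, ∀ y ∈ B, ∀ k < K, dist (f^[k] x) (f^[k] y) < ε) → B.card ≤ 2 ^ n := by
  have h0 : ∀ B : Finset ℝ, (∀ x ∈ B, f^[0] x = q) → B.card ≤ 1 := fun B hq =>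
    Finset.card_le_one.2 fun x hx y hy => (hq x hx).trans (hq y hy).symm
  induction n with
  | zero =>
    intro K hK B hq _
    obtain rfl : K = 0 := by omega
    exact h0 B hq
  | succ n ih =>
    intro K hK B hq hB
    rcases Nat.eq_zero_or_pos K with rfl | hK0
    · exact (h0 B hq).trans Nat.one_le_two_pow
    obtain ⟨j, L, rfl, hj, hL⟩ : ∃ j L, K = L + j ∧ j ≤ m ∧ L ≤ n * m := by
      rw [add_mul, one_mul] at hK
      exact ⟨min K m, K - min K m, by omega, by omega, by omega⟩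
    refine (Finset.card_le_mul_card_image (f := f^[j]) B 2 fun b _ => h j hj b _
      (fun x hx => (Finset.mem_filter.1 hx).2) fun x hx y hy =>
        hB x (Finset.mem_filter.1 hx).1 y (Finset.mem_filter.1 hy).1 0 hK0).trans ?_
    rw [pow_succ']
    refine Nat.mul_le_mul_left 2 (ih L hL _ (fun x hx => ?_) fun x hx y hy k hk => ?_)
    · obtain ⟨x', hx', rfl⟩ := Finset.mem_image.1 hx
      rw [← Function.iterate_add_apply, hq x' hx']
    · obtain ⟨x', hx', rfl⟩ := Finset.mem_image.1 hx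
      obtain ⟨y', hy', rfl⟩ := Finset.mem_image.1 hy
      rw [← Function.iterate_add_apply, ← Function.iterate_add_apply]
      exact hB x' hx' y' hy' _ (by omega)

theorem summable_of_ent_lt {c : ℝ} (h1 : -2 ≤ c) (h2 : c ≤ 1 / 4) {t : ℝ} (ht0 : 0 < t)
    (h : ent c < ((-Real.log t : ℝ) : EReal)) : Summable fun k => (GG c k : ℝ) * t ^ k := by
  classical
  obtain ⟨a, ha, ha'⟩ := EReal.lt_iff_exists_real_btwn.1 h
  have hδ : 0 < -Real.log t - a := sub_pos.2 (EReal.coe_lt_coe_iff.1 ha')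
  have hl : 0 < Real.log 2 := Real.log_pos one_lt_two
  obtain ⟨m, hm⟩ := exists_nat_gt (Real.log 2 / (-Real.log t - a))
  have hm0 : (0 : ℝ) < m := (div_pos hl hδ).trans hm
  have hm1 : 0 < m := by exact_mod_cast hm0
  obtain ⟨ε, hε, h3⟩ := Lower_two c m
  have hU := Metric.dist_mem_uniformity (α := ℝ) (half_pos hε)
  have h4 := ExpGrowth.eventually_le_exp
    ((Dynamics.coverEntropyEntourage_le_coverEntropy _ _ hU).trans_lt ha)
  have hρ : Real.exp (Real.log 2 / m + a + Real.log t) < 1 := by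
    rw [div_lt_iff₀ hδ, mul_comm, ← div_lt_iff₀ hm0] at hm
    exact Real.exp_lt_one_iff.2 (by linarith)
  refine ((summable_geometric_of_lt_one (Real.exp_pos _).le hρ).mul_left
    2).of_norm_bounded_eventually_nat ?_
  filter_upwards [h4] with K hK
  obtain ⟨s, hs, e⟩ := (Dynamics.coverMincard_finite_iff _ _ _ K).1
    (Dynamics.coverMincard_finite_of_isCompact_invariant isCompact_Icc (mapsTo h1 h2) hU K)
  have h5 : (s.card : ℝ) ≤ Real.exp (a * K) := by
    rw [← e, ← EReal.coe_natCast, ← EReal.coe_mul, EReal.exp_coe, ENat.toENNReal_coe,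
      ← ENNReal.ofReal_natCast] at hK
    exact (ENNReal.ofReal_le_ofReal_iff (Real.exp_pos _).le).1 hK
  obtain ⟨S, hS, h6⟩ := Lower_good c K (-be c, true) (be c, false)
    (Or.inl (by linarith [be_ge c] : -be c < be c))
  choose! g hg hg' using hs
  have hI : ∀ p ∈ S, p ∈ Set.Icc (-be c) (be c) := fun p hp =>
    ⟨Lower_le (h6 p hp).1, Lower_le (h6 p hp).2.1⟩
  have h7 : S.card ≤ 2 ^ (K / m + 1) * s.card :=
    Finset.card_le_mul_card_image_of_maps_to (f := g) (fun p hp => hg (hI p hp)) _ fun b _ =>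
      Lower_pow h3 0 _ K (by rw [mul_comm]; exact (Nat.lt_mul_div_succ K hm1).le) _
        (fun x hx => (h6 x (Finset.mem_filter.1 hx).1).2.2) fun x hx y hy k hk => by
          obtain ⟨hx, e1⟩ := Finset.mem_filter.1 hx
          obtain ⟨hy, e2⟩ := Finset.mem_filter.1 hy
          have d1 := Dynamics.mem_dynEntourage.1 (hg' (hI x hx)) k hk
          have d2 := Dynamics.mem_dynEntourage.1 (hg' (hI y hy)) k hk
          rw [e1] at d1
          rw [e2] at d2
          exact (dist_triangle_right _ _ _).trans_lt ((add_lt_add d1 d2).trans_eq (add_halves ε))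
  have h8 : (2 : ℝ) ^ (K / m) ≤ Real.exp (Real.log 2 / m * K) := by
    rw [← Real.exp_log two_pos, ← Real.exp_nat_mul, Real.log_exp]
    refine Real.exp_le_exp.2 ((mul_le_mul_of_nonneg_right Nat.cast_div_le hl.le).trans_eq ?_)
    ring
  have h9 : (GG c K : ℝ) ≤ 2 * Real.exp (Real.log 2 / m * K) * Real.exp (a * K) := by
    rw [GG, ← hS]
    refine le_trans (show (S.card : ℝ) ≤ 2 ^ (K / m + 1) * s.card by exact_mod_cast h7)
      (mul_le_mul ?_ h5 (Nat.cast_nonneg _) (by positivity))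
    rw [pow_succ']
    gcongr
  rw [Real.norm_of_nonneg (by positivity)]
  refine (mul_le_mul_of_nonneg_right h9 (by positivity)).trans_eq ?_
  rw [Real.exp_add, Real.exp_add, Real.exp_log ht0, mul_pow, mul_pow, ← Real.exp_nat_mul,
    ← Real.exp_nat_mul, mul_comm (K : ℝ), mul_comm (K : ℝ)]
  ring

end Pool.Agent.MP_994d64_an
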