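import Pool.Agent.MP_994d64_an.Defs

namespace Pool.Agent.MP_994d64_an

open Finset

lemma prings_bound (d : ℕ → ℝ) (hd : ∀ n, |d n| ≤ 1) {t r : ℝ} (ht0 : 0 ≤ t) (htr : t ≤ r)
    (n : ℕ) : ‖d n * t ^ n‖ ≤ r ^ n := by
  rw [Real.norm_eq_abs, abs_mul, abs_of_nonneg (pow_nonneg ht0 n)]
  calc |d n| * t ^ n ≤ 1 * t ^ n := mul_le_mul_of_nonneg_right (hd n) (pow_nonneg ht0 n)
    _ = t ^ n := one_mul _
    _ ≤ r ^ n := pow_le_pow_left₀ ht0 htr n

lemma prings_summable_norm (d : ℕ → ℝ) (hd : ∀ n, |d n| ≤ 1) {t : ℝ} (ht0 : 0 ≤ t)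
    (ht1 : t < 1) : Summable fun n => ‖d n * t ^ n‖ :=
  Summable.of_nonneg_of_le (fun _ => norm_nonneg _) (prings_bound d hd ht0 le_rfl)
    (summable_geometric_of_lt_one ht0 ht1)

lemma prings_contOn (d : ℕ → ℝ) (hd : ∀ n, |d n| ≤ 1) {r : ℝ} (hr1 : r < 1) :
    ContinuousOn (fun t : ℝ => ∑' n, d n * t ^ n) (Set.Icc 0 r) := by
  rcases lt_or_ge r 0 with hr | hr
  · rw [Set.Icc_eq_empty (not_le.2 hr)]; exact continuousOn_empty _
  · refine continuousOn_tsum (u := fun n => r ^ n) (fun n => ?_)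
      (summable_geometric_of_lt_one hr hr1) (fun n t ht => prings_bound d hd ht.1 ht.2 n)
    fun_prop

lemma prings_fin (d : ℕ → ℝ) (hd : ∀ n, |d n| ≤ 1) {t r : ℝ} (ht0 : 0 ≤ t) (htr : t ≤ r)
    (hr1 : r < 1) (m : ℕ) : |∑ j ∈ range m, d j * t ^ j| ≤ (1 - r)⁻¹ := by
  have hr0 : 0 ≤ r := ht0.trans htr
  calc |∑ j ∈ range m, d j * t ^ j| ≤ ∑ j ∈ range m, |d j * t ^ j| := abs_sum_le_sum_abs _ _
    _ ≤ ∑ j ∈ range m, r ^ j := sum_le_sum fun j _ => prings_bound d hd ht0 htr j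
    _ ≤ ∑' j, r ^ j :=
        (summable_geometric_of_lt_one hr0 hr1).sum_le_tsum _ fun j _ => pow_nonneg hr0 j
    _ = (1 - r)⁻¹ := tsum_geometric_of_lt_one hr0 hr1

lemma prings_tail (d : ℕ → ℝ) (hd : ∀ n, |d n| ≤ 1) {t r : ℝ} (ht0 : 0 ≤ t) (htr : t ≤ r)
    (hr1 : r < 1) (m : ℕ) :
    (∑' n, d n * t ^ n) - r ^ m * (1 - r)⁻¹ ≤ ∑ j ∈ range m, d j * t ^ j := by
  have hr0 : 0 ≤ r := ht0.trans htr
  have hs : Summable fun n => d n * t ^ n :=
    (prings_summable_norm d hd ht0 (htr.trans_lt hr1)).of_norm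
  have h1 := hs.sum_add_tsum_nat_add m
  have h2 : HasSum (fun n => r ^ m * r ^ n) (r ^ m * (1 - r)⁻¹) :=
    (hasSum_geometric_of_lt_one hr0 hr1).mul_left _
  have h3 : ‖∑' n, d (n + m) * t ^ (n + m)‖ ≤ r ^ m * (1 - r)⁻¹ := by
    refine tsum_of_norm_bounded h2 fun n => ?_
    have := prings_bound d hd ht0 htr (n + m)
    rwa [pow_add r, mul_comm (r ^ n)] at this
  rw [Real.norm_eq_abs] at h3
  have := (abs_le.1 h3).2
  linarith

lemma prings_flip (g d : ℕ → ℝ) (t : ℝ) (M : ℕ) :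
    ∑ n ∈ range M, (∑ k ∈ range (n + 1), g k * d (n - k)) * t ^ n =
      ∑ k ∈ range M, g k * t ^ k * ∑ j ∈ range (M - k), d j * t ^ j := by
  have h := Finset.sum_range_diag_flip M (fun k j => g k * t ^ k * (d j * t ^ j))
  simp_rw [mul_sum]
  rw [← h]
  refine sum_congr rfl fun n _ => ?_
  rw [sum_mul]
  refine sum_congr rfl fun k hk => ?_
  have hk' : k ≤ n := Nat.lt_succ_iff.1 (mem_range.1 hk)
  have : t ^ n = t ^ k * t ^ (n - k) := by rw [← pow_add, Nat.add_sub_cancel' hk']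
  rw [this]; ring

lemma prings_two (g d : ℕ → ℝ) (hg : ∀ k, 0 ≤ g k) (hd : ∀ n, |d n| ≤ 1) (hd0 : d 0 = 1)
    (ha : ∀ n, |∑ k ∈ range (n + 1), g k * d (n - k)| ≤ 1) (n : ℕ) :
    ∑ k ∈ range n, g k ≤ 2 ^ n - 1 ∧ g n ≤ 2 ^ n := by
  have key : ∀ n, g n ≤ 1 + ∑ k ∈ range n, g k := by
    intro n
    have h := (abs_le.1 (ha n)).2
    rw [sum_range_succ, Nat.sub_self, hd0, mul_one] at h
    have h2 : ∑ k ∈ range n, -g k ≤ ∑ k ∈ range n, g k * d (n - k) := by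
      refine sum_le_sum fun k _ => ?_
      have := (abs_le.1 (hd (n - k))).1
      nlinarith [hg k]
    rw [sum_neg_distrib] at h2
    linarith
  have h1 : ∀ n, ∑ k ∈ range n, g k ≤ 2 ^ n - 1 := by
    intro n
    induction n with
    | zero => simp
    | succ n ih =>
      rw [sum_range_succ, pow_succ]
      have := key n
      linarith
  refine ⟨h1 n, ?_⟩
  have := key n
  have := h1 n
  linarith

lemma prings_rec (g d : ℕ → ℝ) (hg : ∀ k, 0 ≤ g k) (hd : ∀ n, |d n| ≤ 1)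
    (ha : ∀ n, |∑ k ∈ range (n + 1), g k * d (n - k)| ≤ 1) {t r e : ℝ} (ht0 : 0 ≤ t)
    (htr : t ≤ r) (hr1 : r < 1) {m : ℕ}
    (hm : ∀ j, m ≤ j → e ≤ ∑ i ∈ range j, d i * t ^ i) (N : ℕ) :
    (1 + e * (1 - r)) * (∑ k ∈ range N, g k * t ^ k) - 1 ≤ ∑ k ∈ range (N + m), g k * t ^ k := by
  have hB : 0 < 1 - r := by linarith
  have h1 := prings_fin _ ha ht0 htr hr1 (N + m)
  rw [prings_flip] at h1
  have h1' := (abs_le.1 h1).2
  rw [sum_range_add] at h1'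
  rw [sum_range_add]
  have h2 : e * ∑ k ∈ range N, g k * t ^ k ≤
      ∑ k ∈ range N, g k * t ^ k * ∑ j ∈ range (N + m - k), d j * t ^ j := by
    rw [mul_sum]
    refine sum_le_sum fun k hk => ?_
    have hk' := mem_range.1 hk
    rw [mul_comm e]
    exact mul_le_mul_of_nonneg_left (hm _ (by omega)) (mul_nonneg (hg k) (pow_nonneg ht0 k))
  have h3 : -(1 - r)⁻¹ * ∑ k ∈ range m, g (N + k) * t ^ (N + k) ≤
      ∑ k ∈ range m, g (N + k) * t ^ (N + k) * ∑ j ∈ range (N + m - (N + k)), d j * t ^ j := by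
    rw [mul_sum]
    refine sum_le_sum fun k _ => ?_
    rw [mul_comm (-(1 - r)⁻¹)]
    exact mul_le_mul_of_nonneg_left (abs_le.1 (prings_fin d hd ht0 htr hr1 _)).1
      (mul_nonneg (hg _) (pow_nonneg ht0 _))
  set S := ∑ k ∈ range N, g k * t ^ k
  set T := ∑ k ∈ range m, g (N + k) * t ^ (N + k)
  have h4 : e * S - (1 - r)⁻¹ * T ≤ (1 - r)⁻¹ := by linarith
  have h5 := mul_le_mul_of_nonneg_left h4 hB.le
  have h6 : (1 - r) * (1 - r)⁻¹ = 1 := mul_inv_cancel₀ hB.ne'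
  have h7 : (1 - r) * (e * S - (1 - r)⁻¹ * T) = (1 - r) * e * S - T := by
    rw [mul_sub, ← mul_assoc (1 - r) _ T, h6]; ring
  rw [h7, h6] at h5
  linarith

lemma prings_growth (u : ℕ → ℝ) (hu : ∀ k, 0 ≤ u k) {κ ρ C : ℝ} {m : ℕ} (hκ : 1 < κ)
    (hρ : 1 < ρ) (hρκ : ρ ^ m < κ)
    (hrec : ∀ N, κ * (∑ k ∈ range N, u k) - 1 ≤ ∑ k ∈ range (N + m), u k)
    (hC : ∀ N, ∑ k ∈ range N, u k ≤ C * ρ ^ N) : Summable u := by
  have hκ1 : 0 < κ - 1 := by linarith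
  refine summable_of_sum_range_le hu (c := (κ - 1)⁻¹ + 1) fun N0 => ?_
  by_contra hcon
  push Not at hcon
  have hc : (κ - 1) * (κ - 1)⁻¹ = 1 := mul_inv_cancel₀ hκ1.ne'
  have hc0 : 0 < (κ - 1)⁻¹ := inv_pos.2 hκ1
  have key : ∀ j, κ ^ j ≤ ∑ k ∈ range (N0 + j * m), u k - (κ - 1)⁻¹ := by
    intro j
    induction j with
    | zero => simp only [pow_zero, zero_mul, add_zero]; linarith
    | succ j ih =>
      have h := hrec (N0 + j * m)
      have e : N0 + (j + 1) * m = N0 + j * m + m := by ring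
      rw [e, pow_succ]
      have := mul_le_mul_of_nonneg_left ih (by linarith : (0 : ℝ) ≤ κ)
      nlinarith
  have hp : 0 < ρ ^ m := pow_pos (by linarith) m
  have hq : 1 < κ / ρ ^ m := (one_lt_div hp).2 hρκ
  obtain ⟨j, hj⟩ := pow_unbounded_of_one_lt (C * ρ ^ N0) hq
  have h1 := key j
  have h2 := hC (N0 + j * m)
  rw [div_pow, lt_div_iff₀ (pow_pos hp j)] at hj
  have h3 : C * ρ ^ (N0 + j * m) = C * ρ ^ N0 * (ρ ^ m) ^ j := by
    rw [pow_add, mul_comm j m, pow_mul]; ring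
  linarith

/-- Pringsheim type lemma. -/
theorem prings (g d : ℕ → ℝ) (hg : ∀ k, 0 ≤ g k) (hd : ∀ n, |d n| ≤ 1) (hd0 : d 0 = 1)
    (ha : ∀ n, |∑ k ∈ Finset.range (n + 1), g k * d (n - k)| ≤ 1) {r : ℝ} (hr0 : 0 ≤ r)
    (hr1 : r < 1) (hD : ∀ t ∈ Set.Icc 0 r, 0 < ∑' n, d n * t ^ n) :
    Summable fun k => g k * r ^ k := by
  have hB : 0 < 1 - r := by linarith
  obtain ⟨t0, ht0, hmin⟩ := isCompact_Icc.exists_isMinOn (Set.nonempty_Icc.2 hr0)
    (prings_contOn d hd hr1)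
  set δ := ∑' n, d n * t0 ^ n with hδ
  have hδ0 : 0 < δ := hD t0 ht0
  obtain ⟨m, hm⟩ := exists_pow_lt_of_lt_one (show 0 < δ / 2 * (1 - r) by positivity) hr1
  have hlow : ∀ t ∈ Set.Icc 0 r, ∀ j, m ≤ j → δ / 2 ≤ ∑ i ∈ range j, d i * t ^ i := by
    intro t ht j hj
    have h1 := prings_tail d hd ht.1 ht.2 hr1 j
    have h2 : δ ≤ ∑' n, d n * t ^ n := hmin ht
    have h3 : r ^ j ≤ r ^ m := pow_le_pow_of_le_one hr0 hr1.le hj
    have h4 : r ^ j * (1 - r)⁻¹ ≤ δ / 2 := by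
      rw [← div_eq_mul_inv, div_le_iff₀ hB]; linarith
    linarith
  have hκ : 1 < 1 + δ / 2 * (1 - r) := by
    have : 0 < δ / 2 * (1 - r) := by positivity
    linarith
  obtain ⟨ρ, hρκ, hρ⟩ : ∃ ρ : ℝ, ρ ^ m < 1 + δ / 2 * (1 - r) ∧ 1 < ρ := by
    have hc : ContinuousAt (fun x : ℝ => x ^ m) 1 := by fun_prop
    have h1 : ∀ᶠ x : ℝ in nhds 1, x ^ m < 1 + δ / 2 * (1 - r) :=
      hc.eventually_lt continuousAt_const (by simpa using sub_pos.2 hκ)
    have h2 : ∀ᶠ x : ℝ in nhdsWithin 1 (Set.Ioi 1), x ^ m < 1 + δ / 2 * (1 - r) :=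
      h1.filter_mono nhdsWithin_le_nhds
    exact (h2.and self_mem_nhdsWithin).exists
  have hρ0 : 0 < ρ := by linarith
  have main : ∀ j : ℕ, ∀ t ∈ Set.Icc 0 r, t ≤ ρ ^ j / 4 → Summable fun k => g k * t ^ k := by
    intro j
    induction j with
    | zero =>
      intro t ht h4
      rw [pow_zero] at h4
      refine Summable.of_nonneg_of_le (fun k => mul_nonneg (hg k) (pow_nonneg ht.1 k))
        (fun k => ?_) summable_geometric_two
      calc g k * t ^ k ≤ 2 ^ k * (1 / 4) ^ k :=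
            mul_le_mul (prings_two g d hg hd hd0 ha k).2 (pow_le_pow_left₀ ht.1 h4 k)
              (pow_nonneg ht.1 k) (by positivity)
        _ = (1 / 2) ^ k := by rw [← mul_pow]; norm_num
    | succ j ih =>
      intro t ht h4
      have hs0 : 0 ≤ t / ρ := div_nonneg ht.1 hρ0.le
      have hs1 : t / ρ ≤ r := (div_le_self ht.1 hρ.le).trans ht.2
      have hs2 : t / ρ ≤ ρ ^ j / 4 := by
        rw [div_le_iff₀ hρ0]
        rw [pow_succ] at h4
        linarith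
      have hs := ih (t / ρ) ⟨hs0, hs1⟩ hs2
      refine prings_growth _ (fun k => mul_nonneg (hg k) (pow_nonneg ht.1 k)) hκ hρ hρκ
        (prings_rec g d hg hd ha ht.1 ht.2 hr1 (hlow t ht)) (C := ∑' k, g k * (t / ρ) ^ k)
        fun N => ?_
      calc ∑ k ∈ range N, g k * t ^ k ≤ ∑ k ∈ range N, g k * (t / ρ) ^ k * ρ ^ N := by
            refine sum_le_sum fun k hk => ?_
            have hk' : k ≤ N := (mem_range.1 hk).le
            have e : g k * t ^ k = g k * (t / ρ) ^ k * ρ ^ k := by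
              rw [mul_assoc, ← mul_pow, div_mul_cancel₀ _ hρ0.ne']
            rw [e]
            exact mul_le_mul_of_nonneg_left (pow_le_pow_right₀ hρ.le hk')
              (mul_nonneg (hg k) (pow_nonneg hs0 k))
        _ = (∑ k ∈ range N, g k * (t / ρ) ^ k) * ρ ^ N := (sum_mul _ _ _).symm
        _ ≤ (∑' k, g k * (t / ρ) ^ k) * ρ ^ N :=
            mul_le_mul_of_nonneg_right
              (hs.sum_le_tsum _ fun k _ => mul_nonneg (hg k) (pow_nonneg hs0 k))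
              (pow_nonneg hρ0.le N)
  obtain ⟨j, hj⟩ := pow_unbounded_of_one_lt (4 * r) hρ
  exact main j r ⟨hr0, le_rfl⟩ (by linarith)

/-- Continuity of a power series with bounded coefficients. -/
theorem series_contOn (d : ℕ → ℝ) (hd : ∀ n, |d n| ≤ 1) {r : ℝ} (hr1 : r < 1) :
    ContinuousOn (fun t : ℝ => ∑' n, d n * t ^ n) (Set.Icc 0 r) := by
  exact prings_contOn d hd hr1

/-- Cauchy product. -/
theorem series_mul (g d : ℕ → ℝ) (hg : ∀ k, 0 ≤ g k) (hd : ∀ n, |d n| ≤ 1) {t : ℝ} (ht0 : 0 ≤ t)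
    (ht1 : t < 1) (hs : Summable fun k => g k * t ^ k) :
    (∑' k, g k * t ^ k) * (∑' n, d n * t ^ n) =
      ∑' n, (∑ k ∈ Finset.range (n + 1), g k * d (n - k)) * t ^ n := by
  have h1 : Summable fun k => ‖g k * t ^ k‖ := by
    refine hs.congr fun k => ?_
    rw [Real.norm_eq_abs, abs_of_nonneg (mul_nonneg (hg k) (pow_nonneg ht0 k))]
  rw [tsum_mul_tsum_eq_tsum_sum_range_of_summable_norm h1 (prings_summable_norm d hd ht0 ht1)]
  refine tsum_congr fun n => ?_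
  rw [sum_mul]
  refine sum_congr rfl fun k hk => ?_
  have hk' : k ≤ n := Nat.lt_succ_iff.1 (mem_range.1 hk)
  have : t ^ n = t ^ k * t ^ (n - k) := by rw [← pow_add, Nat.add_sub_cancel' hk']
  rw [this]; ring

end Pool.Agent.MP_994d64_an
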