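import Pool.Agent.MP_994d64_an.Defs

namespace Pool.Agent.MP_994d64_an

open Set Finset

lemma Upper_var {c : ℝ} (h1 : -2 ≤ c) (h2 : c ≤ 1 / 4) (k : ℕ) : ∀ x y : ℝ, x < y →
    x ∈ Set.Icc (-be c) (be c) → y ∈ Set.Icc (-be c) (be c) →
    eVariationOn (fun x : ℝ => x ^ 2 + c)^[k] (Set.Icc x y) ≤ ENNReal.ofReal
      (2 * be c * (1 + ∑ j ∈ range k, (gg c j (x, true) (y, false) : ℝ))) := by
  have b0 := be_ge c
  have hm := mapsTo h1 h2
  induction k with
  | zero =>
    intro x y _ hx hy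
    rw [Function.iterate_zero, eVariationOn_id_Icc]
    exact ENNReal.ofReal_le_ofReal (by simp; linarith [hx.1, hy.2])
  | succ k ih =>
    have up : ∀ x y : ℝ, x < y → x ∈ Set.Icc (-be c) (be c) → y ∈ Set.Icc (-be c) (be c) → 0 ≤ x →
        eVariationOn (fun x : ℝ => x ^ 2 + c)^[k + 1] (Set.Icc x y) ≤ ENNReal.ofReal (2 * be c *
          (1 + ∑ j ∈ range k, (gg c j (x ^ 2 + c, true) (y ^ 2 + c, false) : ℝ))) :=
      fun x y hxy hx hy x0 => by
        rw [Function.iterate_succ]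
        refine (eVariationOn.comp_le_of_monotoneOn _ (s := Set.Icc (x ^ 2 + c) (y ^ 2 + c)) _
          (fun a ha b _ hab => by nlinarith [ha.1]) fun a ha => ⟨by nlinarith [ha.1],
            by nlinarith [ha.1, ha.2]⟩).trans (ih _ _ (by nlinarith) (hm hx) (hm hy))
    have dn : ∀ x y : ℝ, x < y → x ∈ Set.Icc (-be c) (be c) → y ∈ Set.Icc (-be c) (be c) → y ≤ 0 →
        eVariationOn (fun x : ℝ => x ^ 2 + c)^[k + 1] (Set.Icc x y) ≤ ENNReal.ofReal (2 * be c *
          (1 + ∑ j ∈ range k, (gg c j (y ^ 2 + c, true) (x ^ 2 + c, false) : ℝ))) :=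
      fun x y hxy hx hy y0 => by
        rw [Function.iterate_succ]
        refine (eVariationOn.comp_le_of_antitoneOn _ (s := Set.Icc (y ^ 2 + c) (x ^ 2 + c)) _
          (fun a _ b hb hab => by nlinarith [hb.2]) fun a ha => ⟨by nlinarith [ha.2],
            by nlinarith [ha.1, ha.2]⟩).trans (ih _ _ (by nlinarith) (hm hy) (hm hx))
    intro x y hxy hx hy
    rw [sum_range_succ']
    rcases le_or_gt 0 x with x0 | x0
    · have p : pos (x, true) = true := by
        simp only [pos, decide_eq_true_eq, and_true]; exact x0.lt_or_eq'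
      have q : pos (y, false) = true := by simp [pos]; linarith
      simpa only [gg, F, p, q, if_true, Bool.true_eq_false, false_and, if_false, Nat.cast_zero,
        add_zero] using up x y hxy hx hy x0
    have p : pos (x, true) = false := by simp [pos, x0.le, x0.ne]
    rcases le_or_gt y 0 with y0 | y0
    · have q : pos (y, false) = false := by simp [pos, y0]
      simpa only [gg, F, p, q, Bool.false_eq_true, and_false, if_false, Nat.cast_zero,
        add_zero, Bool.not_true, Bool.not_false] using dn x y hxy hx hy y0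
    have q : pos (y, false) = true := by simp [pos, y0]
    have z : (0 : ℝ) ∈ Set.Icc (-be c) (be c) := ⟨by linarith, by linarith⟩
    have e := eVariationOn.Icc_add_Icc (fun x : ℝ => x ^ 2 + c)^[k + 1] (s := Set.univ) x0.le y0.le
      (Set.mem_univ _)
    simp only [Set.univ_inter] at e
    rw [← e]
    refine (add_le_add (dn x 0 x0 hx z le_rfl) (up 0 y y0 z hy le_rfl)).trans ?_
    rw [← ENNReal.ofReal_add (by positivity) (by positivity)]
    refine ENNReal.ofReal_le_ofReal (le_of_eq ?_)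
    simp only [gg, F, p, q, Bool.false_eq_true, if_false, if_true, and_self, Bool.not_true,
      Nat.cast_add, sum_add_distrib, Nat.cast_one, zero_pow two_ne_zero, zero_add]
    ring

lemma Upper_cover {f : ℝ → ℝ} {I : Set ℝ} {w : ℕ → ℝ → ℝ} {n : ℕ} {K ε : ℝ} (hε : 0 < ε)
    (h0 : ∀ k x, 0 ≤ w k x) (hK : ∀ x ∈ I, ∑ k ∈ range n, w k x ≤ K)
    (hw : ∀ k, ∀ x ∈ I, ∀ y ∈ I, x ≤ y → dist (f^[k] x) (f^[k] y) ≤ w k y - w k x)
    {U : Set (ℝ × ℝ)} (hU : ∀ ⦃a b : ℝ⦄, dist a b < ε → (a, b) ∈ U) :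
    Dynamics.coverMincard f I U n ≤ (⌊K / ε⌋₊ + 1 : ℕ) := by
  classical
  let g : ℝ → ℕ := fun x => ⌊(∑ k ∈ range n, w k x) / ε⌋₊
  have key : ∀ x ∈ I, ∀ y ∈ I, x ≤ y → g x = g y → ∀ k < n, dist (f^[k] x) (f^[k] y) < ε :=
    fun x hx y hy hxy e k hk => by
      have a := single_le_sum (f := fun k => w k y - w k x)
        (fun k _ => dist_nonneg.trans (hw k x hx y hy hxy)) (mem_range.2 hk)
      have b : (g x : ℝ) ≤ _ := Nat.floor_le (div_nonneg (sum_nonneg fun k _ => h0 k x) hε.le)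
      have d : _ < (g y : ℝ) + 1 := Nat.lt_floor_add_one _
      rw [le_div_iff₀ hε] at b
      rw [div_lt_iff₀ hε, ← e] at d
      rw [sum_sub_distrib] at a
      linarith [hw k x hx y hy hxy]
  have c : Dynamics.IsDynCoverOf f I U n
      ((range (⌊K / ε⌋₊ + 1)).image (Function.invFunOn g I) : Finset ℝ) := fun x hx => by
    have e : ∃ a ∈ I, g a = g x := ⟨x, hx, rfl⟩
    refine ⟨Function.invFunOn g I (g x), mem_coe.2 (mem_image_of_mem _ (mem_range.2
      (Nat.lt_succ_of_le (Nat.floor_mono (by gcongr; exact hK x hx))))),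
      Dynamics.mem_dynEntourage.2 fun k hk => hU ?_⟩
    rcases le_total x (Function.invFunOn g I (g x)) with h | h
    · exact key _ hx _ (Function.invFunOn_mem e) h (Function.invFunOn_eq e).symm k hk
    · rw [dist_comm]
      exact key _ (Function.invFunOn_mem e) _ hx h (Function.invFunOn_eq e) k hk
  refine c.coverMincard_le_card.trans ?_
  exact_mod_cast card_image_le.trans (card_range _).le

theorem ent_le {c : ℝ} (h1 : -2 ≤ c) (h2 : c ≤ 1 / 4) {r : ℝ} (hr0 : 0 < r) (hr1 : r < 1)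
    (hs : Summable fun k => (GG c k : ℝ) * r ^ k) : ent c ≤ ((-Real.log r : ℝ) : EReal) := by
  have b0 := be_ge c
  have ρ1 : 1 < r⁻¹ := (one_lt_inv₀ hr0).2 hr1
  set S := ∑' k, (GG c k : ℝ) * r ^ k
  have S0 : 0 ≤ S := tsum_nonneg fun k => by positivity
  have v : ∀ k, ∀ x ∈ Set.Icc (-be c) (be c), eVariationOn (fun x : ℝ => x ^ 2 + c)^[k]
      (Set.Icc (-be c) x) ≤ ENNReal.ofReal (2 * be c * (1 + S) * r⁻¹ ^ k) := fun k x hx => by
    refine (eVariationOn.mono _ (Set.Icc_subset_Icc_right hx.2)).trans ((Upper_var h1 h2 k _ _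
      (by linarith) ⟨le_rfl, by linarith⟩ ⟨by linarith, le_rfl⟩).trans
        (ENNReal.ofReal_le_ofReal ?_))
    have a : ∑ j ∈ range k, (GG c j : ℝ) ≤ S * r⁻¹ ^ k := by
      refine le_trans ?_ (mul_le_mul_of_nonneg_right
        (hs.sum_le_tsum (range k) fun k _ => by positivity) (by positivity))
      rw [sum_mul]
      refine sum_le_sum fun j hj => ?_
      rw [mul_assoc, inv_pow]
      refine le_mul_of_one_le_right (Nat.cast_nonneg _) ?_
      rw [← div_eq_mul_inv, one_le_div (by positivity)]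
      exact pow_le_pow_of_le_one hr0.le hr1.le (mem_range.1 hj).le
    have b : 1 ≤ r⁻¹ ^ k := one_le_pow₀ ρ1.le
    rw [mul_assoc _ (1 + S)]
    refine mul_le_mul_of_nonneg_left ?_ (by positivity)
    unfold GG at a
    linarith
  refine iSup₂_le fun U hU => ?_
  obtain ⟨ε, hε, hU⟩ := Metric.mem_uniformity_dist.1 hU
  set K := 2 * be c * (1 + S) / (r⁻¹ - 1) with hK
  have K0 : 0 ≤ K := div_nonneg (by positivity) (by linarith)
  have e : ((-Real.log r : ℝ) : EReal) = ENNReal.log (ENNReal.ofReal r⁻¹) := by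
    rw [ENNReal.log_ofReal_of_pos (by positivity), Real.log_inv]
  rw [e, ← ExpGrowth.expGrowthSup_pow]
  refine ExpGrowth.expGrowthSup_le_of_eventually_le (b := ENNReal.ofReal (K / ε + 1))
    ENNReal.ofReal_ne_top (Filter.Eventually.of_forall fun n => ?_)
  have := Upper_cover (f := fun x : ℝ => x ^ 2 + c) (I := Set.Icc (-be c) (be c)) (n := n)
    (w := fun k x => (eVariationOn (fun x : ℝ => x ^ 2 + c)^[k] (Set.Icc (-be c) x)).toReal)
    (K := K * r⁻¹ ^ n) hε (fun _ _ => ENNReal.toReal_nonneg) (fun x hx => by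
      refine (sum_le_sum fun k _ => ENNReal.toReal_le_of_le_ofReal (by positivity)
        (v k x hx)).trans ?_
      rw [← mul_sum, geom_sum_eq ρ1.ne', hK, div_mul_eq_mul_div, mul_div_assoc _ (r⁻¹ ^ n)]
      gcongr
      linarith) (fun k x hx y hy hxy => by
      have a := eVariationOn.Icc_add_Icc (fun x : ℝ => x ^ 2 + c)^[k] (s := Set.univ) hx.1 hxy
        (Set.mem_univ _)
      simp only [Set.univ_inter] at a
      have b := ne_top_of_le_ne_top ENNReal.ofReal_ne_top (v k y hy)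
      rw [← a] at b ⊢
      rw [ENNReal.toReal_add (ENNReal.add_ne_top.1 b).1 (ENNReal.add_ne_top.1 b).2,
        add_sub_cancel_left, dist_edist]
      exact ENNReal.toReal_mono (ENNReal.add_ne_top.1 b).2 (eVariationOn.edist_le _
        (Set.left_mem_Icc.2 hxy) (Set.right_mem_Icc.2 hxy))) hU
  refine (ENat.toENNReal_mono this).trans ?_
  rw [ENat.toENNReal_coe, ← ENNReal.ofReal_natCast, ← ENNReal.ofReal_pow (by positivity),
    ← ENNReal.ofReal_mul (by positivity)]
  refine ENNReal.ofReal_le_ofReal ?_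
  have a := Nat.floor_le (a := K * r⁻¹ ^ n / ε) (by positivity)
  have b : 1 ≤ r⁻¹ ^ n := one_le_pow₀ ρ1.le
  push_cast
  rw [add_mul, div_mul_eq_mul_div K ε]
  linarith

end Pool.Agent.MP_994d64_an
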