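import Pool.Agent.MP_994d64_an.Ident
import Pool.Agent.MP_994d64_an.Prings
import Pool.Agent.MP_994d64_an.Upper
import Pool.Agent.MP_994d64_an.Lower
import Pool.Agent.MP_994d64_an.Examples

namespace Pool.Agent.MP_994d64_an

open Finset Filter Topology

lemma abs_dd (c : ℝ) (n : ℕ) : |(dd c n : ℝ)| ≤ 1 := by
  cases n with
  | zero => simp [dd]
  | succ n => exact (abs_th c n _).le

lemma DD_cont (c : ℝ) {r : ℝ} (hr : r < 1) : ContinuousOn (DD c) (Set.Icc 0 r) :=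
  series_contOn _ (abs_dd c) hr

lemma Th_cont (c : ℝ) (P : ℝ × Bool) {r : ℝ} (hr : r < 1) : ContinuousOn (Th c P) (Set.Icc 0 r) :=
  series_contOn _ (fun n => (abs_th c n P).le) hr

lemma summ_th (c : ℝ) (P : ℝ × Bool) {t : ℝ} (h0 : 0 ≤ t) (h1 : t < 1) :
    Summable fun n => (th c n P : ℝ) * t ^ n := by
  refine Summable.of_norm_bounded (summable_geometric_of_lt_one h0 h1) fun n => ?_
  rw [Real.norm_eq_abs, abs_mul, abs_th, one_mul, abs_of_nonneg (pow_nonneg h0 n)]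

lemma abs_Th (c : ℝ) (P : ℝ × Bool) {t : ℝ} (h0 : 0 ≤ t) (h1 : t < 1) :
    |Th c P t| ≤ (1 - t)⁻¹ := by
  rw [← tsum_geometric_of_lt_one h0 h1, ← Real.norm_eq_abs]
  refine tsum_of_norm_bounded (summable_geometric_of_lt_one h0 h1).hasSum fun n => ?_
  rw [Real.norm_eq_abs, abs_mul, abs_th, one_mul, abs_of_nonneg (pow_nonneg h0 n)]

lemma DD_pos_half (c : ℝ) {t : ℝ} (h0 : 0 ≤ t) (h1 : t < 1 / 2) : 0 < DD c t := by
  have h2 : t < 1 := by linarith
  rw [DD_eq c h0 h2]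
  have h3 := (abs_le.1 (abs_Th c (c, true) h0 h2)).1
  have h4 : t * (1 - t)⁻¹ < 1 := by
    rw [← div_eq_mul_inv, div_lt_one (by linarith)]; linarith
  nlinarith

/-- The first zero of the kneading determinant. -/
lemma exists_t0 (c : ℝ) : ∃ t0 : ℝ, 1 / 2 ≤ t0 ∧ t0 ≤ 1 ∧ (∀ t, 0 ≤ t → t < t0 → 0 < DD c t) ∧
    (t0 < 1 → DD c t0 = 0) := by
  by_cases h : ∀ t, 0 ≤ t → t < 1 → 0 < DD c t
  · exact ⟨1, by norm_num, le_rfl, h, fun h => absurd h (lt_irrefl _)⟩
  push Not at h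
  obtain ⟨s, hs0, hs1, hs⟩ := h
  have hc := DD_cont c hs1
  have hcl : IsClosed (Set.Icc 0 s ∩ DD c ⁻¹' Set.Iic 0) :=
    hc.preimage_isClosed_of_isClosed isClosed_Icc isClosed_Iic
  have hcomp : IsCompact (Set.Icc 0 s ∩ DD c ⁻¹' Set.Iic 0) :=
    isCompact_Icc.of_isClosed_subset hcl Set.inter_subset_left
  obtain ⟨t0, ht0, hmin⟩ := hcomp.exists_isLeast ⟨s, ⟨hs0, le_rfl⟩, hs⟩
  have hpos : ∀ t, 0 ≤ t → t < t0 → 0 < DD c t := fun t h0 h1 => by
    by_contra hn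
    exact absurd (hmin ⟨⟨h0, h1.le.trans ht0.1.2⟩, not_lt.1 hn⟩) (not_le.2 h1)
  have hh : 1 / 2 ≤ t0 := by
    by_contra hn
    exact absurd (DD_pos_half c ht0.1.1 (not_le.1 hn)) (not_lt.2 ht0.2)
  refine ⟨t0, hh, ht0.1.2.trans hs1.le, hpos, fun _ => ?_⟩
  have hsub : Set.Icc 0 t0 ⊆ Set.Icc 0 s := Set.Icc_subset_Icc le_rfl ht0.1.2
  obtain ⟨u, hu, hu0⟩ := intermediate_value_Icc' ht0.1.1 (hc.mono hsub)
    (show (0 : ℝ) ∈ Set.Icc (DD c t0) (DD c 0) from ⟨ht0.2, (DD_pos_half c le_rfl (by norm_num)).le⟩)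
  rcases hu.2.lt_or_eq with h | h
  · exact absurd hu0 (hpos u hu.1 h).ne'
  · rw [← h]; exact hu0

lemma ent_eq {c : ℝ} (h1 : -2 ≤ c) (h2 : c ≤ 1 / 4) {t0 : ℝ} (ht : 0 < t0) (ht1 : t0 ≤ 1)
    (hpos : ∀ t, 0 ≤ t → t < t0 → 0 < DD c t) (hz : t0 < 1 → DD c t0 = 0) :
    ent c = ((-Real.log t0 : ℝ) : EReal) := by
  apply le_antisymm
  · have hT : Tendsto (fun r : ℝ => ((-Real.log r : ℝ) : EReal)) (𝓝[<] t0)
        (𝓝 ((-Real.log t0 : ℝ) : EReal)) :=
      (continuous_coe_real_ereal.tendsto _).comp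
        ((Real.continuousAt_log ht.ne').neg.tendsto.mono_left nhdsWithin_le_nhds)
    refine ge_of_tendsto hT ?_
    filter_upwards [Ioo_mem_nhdsLT ht] with r hr
    have hr1 : r < 1 := hr.2.trans_le ht1
    refine ent_le h1 h2 hr.1 hr1 (prings _ (fun n => (dd c n : ℝ)) (fun k => Nat.cast_nonneg _)
      (abs_dd c) (by simp [dd]) (fun n => ?_) hr.1.le hr1 fun t h => hpos t h.1 (h.2.trans_lt hr.2))
    rw [ident_GG h2]; simp
  · rcases ht1.lt_or_eq with h | h
    · by_contra hn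
      have hs := summable_of_ent_lt h1 h2 ht (not_le.1 hn)
      have hm := series_mul _ (fun n => (dd c n : ℝ)) (fun k => Nat.cast_nonneg (GG c k))
        (abs_dd c) ht.le h hs
      have h0 : ∑' n, (dd c n : ℝ) * t0 ^ n = 0 := hz h
      simp only [ident_GG h2, one_mul, h0, mul_zero, tsum_geometric_of_lt_one ht.le h] at hm
      exact absurd hm.symm (inv_pos.2 (by linarith)).ne'
    · rw [h]
      simp only [Real.log_one, neg_zero, EReal.coe_zero]
      exact Dynamics.coverEntropy_nonneg _ ⟨0, by constructor <;> linarith [be_ge c]⟩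

lemma Th_mono (c : ℝ) {P Q : ℝ × Bool} (h : LE2 P Q) {t0 : ℝ} (ht : 0 < t0) (ht1 : t0 < 1)
    (hpos : ∀ t, 0 ≤ t → t < t0 → 0 < DD c t) : Th c P t0 ≤ Th c Q t0 := by
  have key : ∀ r ∈ Set.Ioo 0 t0, Th c P r ≤ Th c Q r := by
    intro r hr
    have hr1 : r < 1 := hr.2.trans ht1
    have hid : ∀ n, ∑ k ∈ range (n + 1), (gg c k P Q : ℝ) * (dd c (n - k) : ℝ) =
        ((th c n Q : ℝ) - th c n P) / 2 := fun n => by
      have := ident c n P Q h
      have h' : ((th c n Q : ℝ) - th c n P) =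
        2 * ∑ k ∈ range (n + 1), (gg c k P Q : ℝ) * (dd c (n - k) : ℝ) := by exact_mod_cast this
      linarith
    have hs := prings (fun k => (gg c k P Q : ℝ)) (fun n => (dd c n : ℝ))
      (fun k => Nat.cast_nonneg _) (abs_dd c) (by simp [dd]) (fun n => by
        rw [hid, abs_le]
        have h1 := abs_le.1 (abs_th c n P).le
        have h2 := abs_le.1 (abs_th c n Q).le
        constructor <;> linarith [h1.1, h1.2, h2.1, h2.2]) hr.1.le hr1
      fun t h => hpos t h.1 (h.2.trans_lt hr.2)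
    have hm := series_mul _ (fun n => (dd c n : ℝ)) (fun k => Nat.cast_nonneg (gg c k P Q))
      (abs_dd c) hr.1.le hr1 hs
    have h3 : 0 ≤ (∑' k, (gg c k P Q : ℝ) * r ^ k) * ∑' n, (dd c n : ℝ) * r ^ n :=
      mul_nonneg (tsum_nonneg fun k => mul_nonneg (Nat.cast_nonneg _) (pow_nonneg hr.1.le k))
        (hpos r hr.1.le hr.2).le
    have h4 : ∑' n, ((th c n Q : ℝ) - th c n P) / 2 * r ^ n = (Th c Q r - Th c P r) / 2 := by
      unfold Th
      rw [← (summ_th c Q hr.1.le hr1).tsum_sub (summ_th c P hr.1.le hr1), ← tsum_div_const]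
      congr 1; ext n; ring
    simp only [hid] at hm
    rw [hm, h4] at h3
    linarith
  have hne : (𝓝[Set.Ioo 0 t0] t0).NeBot := by
    rw [← mem_closure_iff_nhdsWithin_neBot, closure_Ioo ht.ne]; exact ⟨ht.le, le_rfl⟩
  have hc : ∀ R, Tendsto (Th c R) (𝓝[Set.Ioo 0 t0] t0) (𝓝 (Th c R t0)) := fun R =>
    ((Th_cont c R ht1) t0 ⟨ht.le, le_rfl⟩).mono Set.Ioo_subset_Icc_self
  exact le_of_tendsto_of_tendsto (hc P) (hc Q) (eventually_nhdsWithin_of_forall key)

lemma iter_fst (c : ℝ) (n : ℕ) :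
    ((F c)^[n] (c, true)).1 = (fun x : ℝ => x ^ 2 + c)^[n + 1] 0 := by
  induction n with
  | zero => simp
  | succ n ih =>
    rw [Function.iterate_succ_apply', Function.iterate_succ_apply' (n := n + 1), ← ih]; rfl

lemma PCF.per {c : ℝ} (h : PCF c) :
    ∃ n p, 0 < p ∧ (F c)^[n + p] (c, true) = (F c)^[n] (c, true) := by
  have hf : ((Set.range fun n : ℕ => (fun x : ℝ => x ^ 2 + c)^[n + 1] 0) ×ˢ
      (Set.univ : Set Bool)).Finite := Set.Finite.prod h Set.finite_univ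
  have hm : ∀ n : ℕ, (F c)^[n] (c, true) ∈
      (Set.range fun n : ℕ => (fun x : ℝ => x ^ 2 + c)^[n + 1] 0) ×ˢ (Set.univ : Set Bool) :=
    fun n => ⟨⟨n, (iter_fst c n).symm⟩, trivial⟩
  obtain ⟨a, b, hab, he⟩ := Set.Finite.exists_lt_map_eq_of_forall_mem hm hf
  exact ⟨a, b - a, Nat.sub_pos_of_lt hab, by rw [Nat.add_sub_cancel' hab.le]; exact he.symm⟩

/-- The entropy of a postcritically finite real quadratic map comes from a tent orbit. -/
theorem tent_of_pcf {c : ℝ} (h : PCF c) :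
    Real.exp (ent c).toReal = 1 ∨ ∃ x e, Tent (Real.exp (ent c).toReal) x e := by
  obtain ⟨t0, hh, h1, hpos, hz⟩ := exists_t0 c
  have ht : 0 < t0 := by linarith
  have he := ent_eq h.mem.1 h.mem.2 ht h1 hpos hz
  have hl : Real.exp (ent c).toReal = t0⁻¹ := by
    rw [he, EReal.toReal_coe, Real.exp_neg, Real.exp_log ht]
  rw [hl]
  rcases h1.lt_or_eq with h1 | h1
  swap
  · left; simp [h1]
  right
  have hx0 : -t0 * Th c (c, true) t0 = 1 := by
    have := hz h1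
    rw [DD_eq c ht.le h1] at this
    linarith
  have hsg : ∀ P, eps P = 1 ∨ eps P = -1 := fun P => by unfold eps; split_ifs <;> simp
  refine ⟨fun n => -t0 * Th c ((F c)^[n] (c, true)) t0, fun n => eps ((F c)^[n] (c, true)),
    (one_lt_inv₀ ht).2 h1, ?_, hx0, fun n => hsg _, fun n => ?_, fun n => ?_, ?_⟩
  · rw [inv_le_comm₀ ht (by norm_num)]; linarith
  · simp only [Function.iterate_succ_apply']
    rw [Th_eq c ((F c)^[n] (c, true)) ht.le h1]
    rcases hsg ((F c)^[n] (c, true)) with h' | h' <;> rw [h'] <;> push_cast <;> field_simp <;> ring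
  · cases n with
    | zero => exact hx0.le
    | succ n =>
      simp only [Function.iterate_succ_apply']
      have := Th_mono c (crit_le c ((F c)^[n] (c, true))) ht h1 hpos
      nlinarith
  · obtain ⟨n, p, hp, hn⟩ := h.per
    refine ⟨n, p, hp, by simp only [hn], fun k => ?_⟩
    have : n + k + p = k + (n + p) := by ring
    show eps ((F c)^[n + k + p] (c, true)) = eps ((F c)^[n + k] (c, true))
    rw [this, Function.iterate_add_apply _ k (n + p), hn, add_comm n k,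
      Function.iterate_add_apply _ k n]

lemma exp_ent {c : ℝ} (h : PCF c) {t0 : ℝ} (ht : 0 < t0) (ht1 : t0 ≤ 1)
    (hpos : ∀ t, 0 ≤ t → t < t0 → 0 < DD c t) (hz : t0 < 1 → DD c t0 = 0) :
    Real.exp (ent c).toReal = t0⁻¹ := by
  rw [ent_eq h.mem.1 h.mem.2 ht ht1 hpos hz, EReal.toReal_coe, Real.exp_neg, Real.exp_log ht]

end Pool.Agent.MP_994d64_an
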