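import Pool.Agent.MP_994d64_an.Conj

namespace Pool.Agent.MP_994d64_an

open Polynomial

lemma Mahler_coeff {e : ℕ → ℤ} (he : ∀ n, e n = 1 ∨ e n = -1) (n : ℕ) :
    ∀ j, |(ConjP e n).coeff j| ≤ 1 := by
  induction n with
  | zero =>
    intro j
    rw [ConjP, coeff_one]
    split_ifs <;> simp
  | succ n ih =>
    intro j
    rw [ConjP, coeff_add, mul_assoc, coeff_C_mul]
    rcases j with _ | j
    · simp
    · rw [coeff_X_mul, coeff_one, if_neg (Nat.succ_ne_zero j), zero_add, abs_mul]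
      rcases he n with h | h <;> simpa [h] using ih j

lemma Mahler_prod {Q : ℂ[X]} (hQ : 1 ≤ ‖Q.leadingCoeff‖) {r : ℝ} (hr : 0 < r) (S : Finset ℂ)
    (hS : ∀ z ∈ S, Q.eval (r * z) = 0) : ∏ z ∈ S, r * ‖z‖ ≤ Q.mahlerMeasure := by
  have h0 : Q ≠ 0 := by
    rintro rfl
    norm_num at hQ
  have hr' : (r : ℂ) ≠ 0 := by exact_mod_cast hr.ne'
  have h1 : S.val.map (fun z => (r : ℂ) * z) ≤ Q.roots := by
    refine (Multiset.le_iff_subset (S.nodup.map (mul_right_injective₀ hr'))).2 fun y hy => ?_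
    obtain ⟨z, hz, rfl⟩ := Multiset.mem_map.1 hy
    exact (mem_roots h0).2 (hS z hz)
  obtain ⟨t, ht⟩ := Multiset.le_iff_exists_add.1 h1
  refine le_trans ?_ (prod_max_one_norm_roots_le_mahlerMeasure_of_one_le_leadingCoeff hQ)
  have h2 : 1 ≤ (t.map fun a : ℂ => max 1 ‖a‖).prod := by
    refine Multiset.one_le_prod fun y hy => ?_
    obtain ⟨a, -, rfl⟩ := Multiset.mem_map.1 hy
    exact le_max_left _ _
  have h3 : ∏ z ∈ S, r * ‖z‖ ≤ ∏ z ∈ S, max 1 ‖(r : ℂ) * z‖ := by
    refine Finset.prod_le_prod (fun z _ => by positivity) fun z _ => le_max_of_le_right ?_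
    rw [norm_mul, Complex.norm_real, Real.norm_of_nonneg hr.le]
  rw [ht, Multiset.map_add, Multiset.prod_add, Multiset.map_map]
  exact h3.trans (le_mul_of_one_le_right
    (Finset.prod_nonneg fun z _ => zero_le_one.trans (le_max_left _ _)) h2)

lemma Mahler_bound {e : ℕ → ℤ} (he : ∀ n, e n = 1 ∨ e n = -1) {n K : ℕ} (hK : 0 < K) {r : ℝ}
    (hr : 0 < r) (hr1 : r ^ 2 < 1) (S : Finset ℂ)
    (hS : ∀ z ∈ S, aeval z (ConjP e (n + K) - ConjP e n) = 0) :
    (∏ z ∈ S, r * ‖z‖) ^ 2 ≤ 1 / (1 - r ^ 2) + 3 * (n + 1) * (r ^ 2) ^ K := by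
  set P : ℂ[X] := (ConjP e (n + K) - ConjP e n).map (algebraMap ℤ ℂ) with hP
  have hc : ∀ j, P.coeff j = (((ConjP e (n + K)).coeff j - (ConjP e n).coeff j : ℤ) : ℂ) :=
    fun j => by rw [hP, coeff_map, coeff_sub]; rfl
  have hz : ∀ j, n < j → (ConjP e n).coeff j = 0 := fun j hj =>
    coeff_eq_zero_of_natDegree_lt ((Conj_natDegree _ _).trans_lt hj)
  have ht : ‖P.coeff (n + K)‖ = 1 := by
    rw [hc, hz _ (by omega), sub_zero, Complex.norm_intCast]
    rcases Int.eq_one_or_neg_one_of_mul_eq_one (Conj_coeff he (n + K)) with h | h <;> simp [h]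
  have hd : P.natDegree = n + K := by
    refine natDegree_eq_of_le_of_coeff_ne_zero (natDegree_map_le.trans
      ((natDegree_sub_le _ _).trans (max_le (Conj_natDegree _ _)
        ((Conj_natDegree _ _).trans (by omega))))) fun h => ?_
    rw [h, norm_zero] at ht
    exact zero_ne_one ht
  have hb : ∀ j, ‖P.coeff j‖ ^ 2 ≤ 1 + if j < n + 1 then 3 else 0 := fun j => by
    have h1 : |(((ConjP e (n + K)).coeff j : ℤ) : ℝ)| ≤ 1 := by
      exact_mod_cast Mahler_coeff he (n + K) j
    have h2 : |(((ConjP e n).coeff j : ℤ) : ℝ)| ≤ 1 := by exact_mod_cast Mahler_coeff he n j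
    rw [hc, Complex.norm_intCast, sq_abs]
    rw [abs_le] at h1 h2
    split_ifs with h
    · push_cast
      nlinarith [h1.1, h1.2, h2.1, h2.2]
    · rw [hz j (by omega)]
      push_cast
      nlinarith [h1.1, h1.2]
  have h1 := Mahler_prod (Q := P.scaleRoots r) (by
    rw [leadingCoeff_scaleRoots, leadingCoeff, hd, ht]) hr S fun z hz => by
      rw [scaleRoots_eval_mul, hP, eval_map_algebraMap, hS z hz, mul_zero]
  have h2 := h1.trans (mahlerMeasure_le_sqrt_sum_sq_norm_coeff _)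
  have h0 : 0 ≤ r ^ 2 := sq_nonneg r
  refine (Real.le_sqrt (Finset.prod_nonneg fun z _ => by positivity)
    (Finset.sum_nonneg fun _ _ => sq_nonneg _)).1 h2 |>.trans ?_
  calc ∑ i ∈ (P.scaleRoots r).support, ‖(P.scaleRoots r).coeff i‖ ^ 2
      ≤ ∑ i ∈ Finset.range (n + K + 1), ‖(P.scaleRoots r).coeff i‖ ^ 2 := by
        refine Finset.sum_le_sum_of_subset_of_nonneg (fun i hi => Finset.mem_range.2 ?_)
          fun _ _ _ => sq_nonneg _
        have := le_natDegree_of_mem_supp i hi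
        rw [natDegree_scaleRoots, hd] at this
        omega
    _ ≤ ∑ i ∈ Finset.range (n + K + 1),
          ((r ^ 2) ^ (n + K - i) + if i < n + 1 then 3 * (r ^ 2) ^ K else 0) := by
        refine Finset.sum_le_sum fun i _ => ?_
        rw [coeff_scaleRoots, hd, norm_mul, norm_pow, Complex.norm_real,
          Real.norm_of_nonneg hr.le, mul_pow, ← pow_mul, mul_comm (n + K - i), pow_mul]
        refine (mul_le_mul_of_nonneg_right (hb i) (pow_nonneg h0 _)).trans ?_
        split_ifs with h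
        · have := pow_le_pow_of_le_one h0 hr1.le (show K ≤ n + K - i by omega)
          linarith
        · simp
    _ ≤ _ := by
        rw [Finset.sum_add_distrib]
        refine add_le_add ?_ ?_
        · rw [Finset.sum_flip (fun i => (r ^ 2) ^ i), one_div, ← tsum_geometric_of_lt_one h0 hr1]
          exact (summable_geometric_of_lt_one h0 hr1).sum_le_tsum _ fun _ _ => pow_nonneg h0 _
        · rw [← Finset.sum_filter, show (Finset.range (n + K + 1)).filter (· < n + 1) =
            Finset.range (n + 1) by ext i; simp; omega]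
          simp only [Finset.sum_const, Finset.card_range, nsmul_eq_mul]
          push_cast
          exact le_of_eq (by ring)

theorem Tent.mahler {l : ℝ} {x : ℕ → ℝ} {e : ℕ → ℤ} (T : Tent l x e) (S : Finset ℂ)
    (hS : ∀ z ∈ S, aeval z (minpoly ℚ l) = 0) :
    (∏ z ∈ S, ‖z‖) ^ 2 * (S.card : ℝ) ^ S.card ≤ ((S.card : ℝ) + 1) ^ (S.card + 1) := by
  rcases S.eq_empty_or_nonempty with rfl | hne
  · simp
  have hm : (0 : ℝ) < S.card := by exact_mod_cast hne.card_pos
  obtain ⟨N, p, hp, h1, h2⟩ := T.per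
  have hx : ∀ k, x (N + k + p) = x (N + k) := fun k => by
    induction k with
    | zero => exact h1
    | succ k ih =>
      rw [show N + (k + 1) + p = N + k + p + 1 by ring, ← add_assoc, T.step, T.step, ih, h2]
  have hx2 : ∀ k, x (N + k * p) = x N := fun k => by
    induction k with
    | zero => simp
    | succ k ih => rw [Nat.succ_mul, ← add_assoc, hx, ih]
  obtain ⟨r, hr, hr2⟩ : ∃ r : ℝ, 0 < r ∧ r ^ 2 = S.card / (S.card + 1) :=
    ⟨√(S.card / (S.card + 1)), Real.sqrt_pos.2 (by positivity), Real.sq_sqrt (by positivity)⟩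
  have hr1 : r ^ 2 < 1 := by
    rw [hr2, div_lt_one (by positivity)]
    linarith
  have h3 : (∏ z ∈ S, r * ‖z‖) ^ 2 ≤ 1 / (1 - r ^ 2) := by
    have h4 := ((tendsto_pow_atTop_nhds_zero_of_lt_one (sq_nonneg r) hr1).const_mul
      (3 * ((N : ℝ) + 1))).const_add (1 / (1 - r ^ 2))
    rw [mul_zero, add_zero] at h4
    refine ge_of_tendsto h4 (Filter.eventually_atTop.2 ⟨1, fun k hk => ?_⟩)
    refine (Mahler_bound T.sign (n := N) (K := k * p) (Nat.mul_pos hk hp) hr hr1 S
      fun z hz => Conj_root (hS z hz) (by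
        rw [map_sub, Conj_aeval_x T, Conj_aeval_x T, hx2, sub_self])).trans ?_
    have := pow_le_pow_of_le_one (sq_nonneg r) hr1.le (Nat.le_mul_of_pos_right k hp)
    gcongr
  have h5 : 1 / (1 - r ^ 2) = S.card + 1 := by
    rw [hr2]
    field_simp
    ring
  rw [h5, Finset.prod_mul_distrib, Finset.prod_const, mul_pow, ← pow_mul, mul_comm S.card, pow_mul,
    hr2, div_pow, div_mul_eq_mul_div, div_le_iff₀ (by positivity)] at h3
  rw [pow_succ ((S.card : ℝ) + 1)]
  linarith

end Pool.Agent.MP_994d64_an
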